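import Pool.Agent.MXC.Defs

/-!
# [QMA] the explicit recursion for the difference term
-/

set_option autoImplicit false

namespace Pool.Agent.QMA

open Pool.Agent.MXC

/-- The recursion for the second function `B`: `BVal m b` means that `b` is the value given by a
sequence of optimal complete graphs for `m` (`n` is optimal for `m = C(n,2) + r` if
`mc m = ⌊n ^ 2 / 4⌋ + mc r`, and for `m = C(n,2) - y` if `mc m = ⌊n ^ 2 / 4⌋`).  The least `b` with
`BVal m b` is `B(m)`. -/
inductive BVal : ℕ → ℕ → Prop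
  | zero : BVal 0 0
  | even {k r b : ℕ} : 1 ≤ k → mc ((2 * k).choose 2 + r) = (2 * k) ^ 2 / 4 + mc r → BVal r b →
      BVal ((2 * k).choose 2 + r) b
  | odd {k r b : ℕ} : 1 ≤ k → mc ((2 * k + 1).choose 2 + r) = (2 * k + 1) ^ 2 / 4 + mc r →
      BVal r b → BVal ((2 * k + 1).choose 2 + r) (k + b)
  | evenNeg {k y m : ℕ} : 1 ≤ k → m + y = (2 * k).choose 2 → mc m = (2 * k) ^ 2 / 4 → BVal m y
  | oddNeg {k y m : ℕ} : 1 ≤ k → m + y = (2 * k + 1).choose 2 → mc m = (2 * k + 1) ^ 2 / 4 →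
      BVal m (k + y)

/-- The recursion for the difference term `D`; the largest `x` with `DVal m x` is the value of the
recursion for `D(m)`; the value `2` for `m = 8` (`K_5` minus two disjoint edges) is exceptional. -/
inductive DVal : ℕ → ℕ → Prop
  | zero : DVal 0 0
  | even {k r x : ℕ} : 1 ≤ k → mc ((2 * k).choose 2 + r) = (2 * k) ^ 2 / 4 + mc r → DVal r x →
      DVal ((2 * k).choose 2 + r) x
  | odd {k r b x : ℕ} : 1 ≤ k → mc ((2 * k + 1).choose 2 + r) = (2 * k + 1) ^ 2 / 4 + mc r →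
      BVal r b → x + b = k → DVal ((2 * k + 1).choose 2 + r) x
  | evenNeg {k y m : ℕ} : 1 ≤ k → m + y = (2 * k).choose 2 → mc m = (2 * k) ^ 2 / 4 → DVal m y
  | oddNeg {k y m x : ℕ} : 1 ≤ k → m + y = (2 * k + 1).choose 2 → mc m = (2 * k + 1) ^ 2 / 4 →
      x + y = k → DVal m x
  | eight : DVal 8 2

end Pool.Agent.QMA
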