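import Pool.Agent.QMA.Defs
import Pool.Agent.MXC.Fin
import Pool.Agent.MXC.TG

/-!
# [QMA] constructions for the difference term
-/

set_option autoImplicit false

namespace Pool.Agent.QMA

open Finset Pool.Agent.MP_710317_co Pool.Agent.MP_710317_co.Rec Pool.Agent.MXC

/-- there is a graph with `m` edges, all cuts at most `mc m`, and for all cuts of this size twice the
difference of the insides has the property `p` -/
def Rb (m : ℕ) (p : ℤ → Prop) : Prop :=
  ∃ (V : Type) (_ : Fintype V) (_ : DecidableEq V) (w : V → V → ℤ), Sym w ∧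
    (∀ i j, w i j = 0 ∨ w i j = 1) ∧ inn w univ = 2 * (m : ℤ) ∧
    ∀ S : Finset V, crs w S Sᶜ ≤ (mc m : ℤ) ∧ (crs w S Sᶜ = (mc m : ℤ) → p (inn w S - inn w Sᶜ))

/-- disjoint union -/
def us {W V : Type} (w₁ : W → W → ℤ) (w₂ : V → V → ℤ) : W ⊕ V → W ⊕ V → ℤ
  | Sum.inl i, Sum.inl j => w₁ i j
  | Sum.inr i, Sum.inr j => w₂ i j
  | _, _ => 0

theorem us_crs {W V : Type} (w₁ : W → W → ℤ) (w₂ : V → V → ℤ) (A1 C1 : Finset W)
    (A2 C2 : Finset V) :
    crs (us w₁ w₂) (A1.disjSum A2) (C1.disjSum C2) = crs w₁ A1 C1 + crs w₂ A2 C2 := by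
  unfold crs
  rw [Finset.sum_disjSum]
  congr 1
  · refine Finset.sum_congr rfl fun i _ => ?_
    rw [Finset.sum_disjSum]
    simp [us]
  · refine Finset.sum_congr rfl fun i _ => ?_
    rw [Finset.sum_disjSum]
    simp [us]

theorem us_all {W V : Type} [Fintype W] [Fintype V] [DecidableEq W] [DecidableEq V]
    (w₁ : W → W → ℤ) (w₂ : V → V → ℤ) (S : Finset (W ⊕ V)) :
    crs (us w₁ w₂) S Sᶜ = crs w₁ S.toLeft S.toLeftᶜ + crs w₂ S.toRight S.toRightᶜ ∧
    inn (us w₁ w₂) S = inn w₁ S.toLeft + inn w₂ S.toRight ∧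
    inn (us w₁ w₂) Sᶜ = inn w₁ S.toLeftᶜ + inn w₂ S.toRightᶜ := by
  have hc : Sᶜ = S.toLeftᶜ.disjSum S.toRightᶜ := by
    ext x
    rcases x with x | x <;> simp
  have hS : S.toLeft.disjSum S.toRight = S := Finset.toLeft_disjSum_toRight
  refine ⟨?_, ?_, ?_⟩
  · rw [← us_crs, hS, ← hc]
  · rw [inn_eq_crs, inn_eq_crs, inn_eq_crs, ← us_crs, hS]
  · rw [inn_eq_crs, inn_eq_crs, inn_eq_crs, ← us_crs, ← hc]

/-- the complete graph minus `ν` -/
def km (n : ℕ) (ν : Fin n → Fin n → ℤ) (i j : Fin n) : ℤ := if i = j then 0 else 1 - ν i j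

theorem km_crs {n : ℕ} (ν : Fin n → Fin n → ℤ) (S : Finset (Fin n)) :
    crs (km n ν) S Sᶜ = (S.card : ℤ) * ((n : ℤ) - S.card) - crs ν S Sᶜ := by
  have h1 : ∀ i ∈ S, ∑ j ∈ Sᶜ, km n ν i j = ((n : ℤ) - S.card) - ∑ j ∈ Sᶜ, ν i j := by
    intro i hi
    have h2 : ∀ j ∈ Sᶜ, km n ν i j = 1 - ν i j := by
      intro j hj
      unfold km
      rw [if_neg]
      rintro rfl
      exact (mem_compl.1 hj) hi
    rw [Finset.sum_congr rfl h2, Finset.sum_sub_distrib, Finset.sum_const, nsmul_eq_mul, mul_one]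
    have h3 : S.card + Sᶜ.card = n := by rw [card_add_card_compl, Fintype.card_fin]
    have h4 : (Sᶜ.card : ℤ) = (n : ℤ) - S.card := by omega
    rw [h4]
  unfold crs
  rw [Finset.sum_congr rfl h1, Finset.sum_sub_distrib, Finset.sum_const, nsmul_eq_mul]

theorem km_inn {n : ℕ} {ν : Fin n → Fin n → ℤ} (hν : ∀ i, ν i i = 0) (S : Finset (Fin n)) :
    inn (km n ν) S = (S.card : ℤ) * ((S.card : ℤ) - 1) - inn ν S := by
  have h1 : ∀ i ∈ S, ∑ j ∈ S, km n ν i j = ((S.card : ℤ) - 1) - ∑ j ∈ S, ν i j := by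
    intro i hi
    have h2 : ∀ j ∈ S, km n ν i j = (1 - ν i j) - (if i = j then 1 else 0) := by
      intro j _
      unfold km
      by_cases h : i = j
      · subst h; simp [hν]
      · simp [h]
    rw [Finset.sum_congr rfl h2, Finset.sum_sub_distrib, Finset.sum_sub_distrib, Finset.sum_const,
      nsmul_eq_mul, mul_one, Finset.sum_ite_eq, if_pos hi]
    ring
  unfold inn
  rw [Finset.sum_congr rfl h1, Finset.sum_sub_distrib, Finset.sum_const, nsmul_eq_mul]

theorem quarter_even (k : ℕ) : (2 * k) ^ 2 / 4 = k * k := by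
  have : (2 * k) ^ 2 = 4 * (k * k) := by ring
  rw [this]
  exact Nat.mul_div_cancel_left _ (by norm_num)

theorem quarter_odd (k : ℕ) : (2 * k + 1) ^ 2 / 4 = k * (k + 1) := by
  have : (2 * k + 1) ^ 2 = 1 + 4 * (k * (k + 1)) := by ring
  rw [this, Nat.add_mul_div_left _ _ (by norm_num)]
  norm_num

/-- the facts about `K_n` minus `ν` -/
theorem km_all {n : ℕ} {ν : Fin n → Fin n → ℤ} (hs : Sym ν) (h0 : ∀ i j, 0 ≤ ν i j) {y : ℤ}
    (hy : inn ν univ = 2 * y) (S : Finset (Fin n)) :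
    crs (km n ν) S Sᶜ ≤ ((n ^ 2 / 4 : ℕ) : ℤ) ∧
    (crs (km n ν) S Sᶜ = ((n ^ 2 / 4 : ℕ) : ℤ) → crs ν S Sᶜ = 0 ∧ inn ν S + inn ν Sᶜ = 2 * y ∧
      ((∃ k : ℤ, (n : ℤ) = 2 * k ∧
          inn (km n ν) S - inn (km n ν) Sᶜ = - (inn ν S - inn ν Sᶜ)) ∨
        (∃ k : ℤ, (n : ℤ) = 2 * k + 1 ∧
          (inn (km n ν) S - inn (km n ν) Sᶜ = 2 * k - (inn ν S - inn ν Sᶜ) ∨
           inn (km n ν) S - inn (km n ν) Sᶜ = - (2 * k) - (inn ν S - inn ν Sᶜ))))) := by
  have hc0 : 0 ≤ crs ν S Sᶜ := Finset.sum_nonneg fun i _ => Finset.sum_nonneg fun j _ => h0 i j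
  have h3 : S.card + Sᶜ.card = n := by rw [card_add_card_compl, Fintype.card_fin]
  have h4 : (Sᶜ.card : ℤ) = (n : ℤ) - S.card := by omega
  have hcrs := km_crs ν S
  have hi1 := km_inn hs.diag S
  have hi2 := km_inn hs.diag Sᶜ
  have hsp := tot_split hs S
  rw [h4] at hi2
  set a : ℤ := (S.card : ℤ) with ha
  rcases Nat.even_or_odd' n with ⟨k, hk | hk⟩
  · have e1 : ((n ^ 2 / 4 : ℕ) : ℤ) = (k : ℤ) * k := by
      rw [hk, quarter_even]; push_cast; ring
    have e2 : (n : ℤ) = 2 * k := by rw [hk]; push_cast; ring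
    rw [e1]
    rw [e2] at hcrs hi2
    have e3 : a * (2 * k - a) = k * k - (k - a) ^ 2 := by ring
    constructor
    · nlinarith [sq_nonneg ((k : ℤ) - a)]
    · intro h
      have h5 : ((k : ℤ) - a) ^ 2 = 0 := by nlinarith [sq_nonneg ((k : ℤ) - a)]
      have h6 : (k : ℤ) - a = 0 := by
        rcases pow_eq_zero_iff (n := 2) (by norm_num) |>.1 h5 with h7
        exact h7
      have h7 : a = k := by linarith
      have h8 : crs ν S Sᶜ = 0 := by rw [h, h7] at hcrs; nlinarith
      refine ⟨h8, by rw [hy, h8] at hsp; linarith, Or.inl ⟨k, e2, ?_⟩⟩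
      rw [hi1, hi2, h7]; ring
  · have e1 : ((n ^ 2 / 4 : ℕ) : ℤ) = (k : ℤ) * (k + 1) := by
      rw [hk, quarter_odd]; push_cast; ring
    have e2 : (n : ℤ) = 2 * k + 1 := by rw [hk]; push_cast; ring
    rw [e1]
    rw [e2] at hcrs hi2
    have e3 : a * (2 * k + 1 - a) = k * (k + 1) - (k - a) * (k + 1 - a) := by ring
    have e4 : 0 ≤ ((k : ℤ) - a) * (k + 1 - a) := by
      rcases le_or_gt a k with h | h
      · exact mul_nonneg (by linarith) (by linarith)
      · exact mul_nonneg_of_nonpos_of_nonpos (by linarith) (by linarith [Int.add_one_le_iff.2 h])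
    constructor
    · nlinarith
    · intro h
      have h5 : ((k : ℤ) - a) * (k + 1 - a) = 0 := by nlinarith
      have h8 : crs ν S Sᶜ = 0 := by nlinarith
      refine ⟨h8, by rw [hy, h8] at hsp; linarith, Or.inr ⟨k, e2, ?_⟩⟩
      rcases mul_eq_zero.1 h5 with h6 | h6
      · right
        have h7 : a = k := by linarith
        rw [hi1, hi2, h7]; ring
      · left
        have h7 : a = k + 1 := by linarith
        rw [hi1, hi2, h7]; ring

theorem choose_two_int (n : ℕ) : 2 * ((n.choose 2 : ℕ) : ℤ) = (n : ℤ) * (n - 1) :=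
  two_choose_int n

theorem km_sym {n : ℕ} {ν : Fin n → Fin n → ℤ} (hs : Sym ν) : Sym (km n ν) := by
  constructor
  · intro i j
    unfold km
    by_cases h : i = j
    · rw [if_pos h, if_pos h.symm]
    · rw [if_neg h, if_neg (Ne.symm h), hs.symm]
  · intro i
    unfold km
    rw [if_pos rfl]

theorem km_tot {n : ℕ} {ν : Fin n → Fin n → ℤ} (hν : ∀ i, ν i i = 0) {y : ℤ}
    (hy : inn ν univ = 2 * y) : inn (km n ν) univ = 2 * (((n.choose 2 : ℕ) : ℤ) - y) := by
  rw [km_inn hν, card_univ, Fintype.card_fin, hy]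
  have := choose_two_int n
  linarith

theorem km01 {n : ℕ} {ν : Fin n → Fin n → ℤ} (h : ∀ i j, ν i j = 0 ∨ ν i j = 1) (i j : Fin n) :
    km n ν i j = 0 ∨ km n ν i j = 1 := by
  unfold km
  split_ifs
  · exact Or.inl rfl
  · rcases h i j with h1 | h1
    · right; rw [h1]; ring
    · left; rw [h1]; ring

/-- union with a complete graph -/
theorem Rb_union {n r : ℕ} {p : ℤ → Prop} (h : Rb r p)
    (hm : mc (n.choose 2 + r) = n ^ 2 / 4 + mc r) :
    Rb (n.choose 2 + r) fun z => (Even n ∧ p z) ∨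
      ∃ k : ℤ, (n : ℤ) = 2 * k + 1 ∧ (p (z - 2 * k) ∨ p (z + 2 * k)) := by
  obtain ⟨V, i1, i2, w, hw, h01, htot, hS⟩ := h
  have hz : Sym (fun _ _ : Fin n => (0 : ℤ)) := ⟨fun _ _ => rfl, fun _ => rfl⟩
  have hz0 : inn (fun _ _ : Fin n => (0 : ℤ)) univ = 2 * 0 := by simp [inn]
  refine ⟨Fin n ⊕ V, inferInstance, inferInstance, us (km n fun _ _ => 0) w, ?_, ?_, ?_, ?_⟩
  · constructor
    · intro i j
      rcases i with i | i <;> rcases j with j | j
      · exact (km_sym hz).symm i j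
      · rfl
      · rfl
      · exact hw.symm i j
    · intro i
      rcases i with i | i
      · exact (km_sym hz).diag i
      · exact hw.diag i
  · intro i j
    rcases i with i | i <;> rcases j with j | j
    · exact km01 (fun _ _ => Or.inl rfl) i j
    · exact Or.inl rfl
    · exact Or.inl rfl
    · exact h01 i j
  · have h1 := (us_all (km n fun _ _ => 0) w univ).2.1
    have e1 : (univ : Finset (Fin n ⊕ V)).toLeft = univ := by ext x; simp
    have e2 : (univ : Finset (Fin n ⊕ V)).toRight = univ := by ext x; simp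
    rw [h1, e1, e2, km_tot (fun _ => rfl) hz0, htot]
    push_cast
    ring
  · intro S
    obtain ⟨e1, e2, e3⟩ := us_all (km n fun _ _ => 0) w S
    obtain ⟨h1, h2⟩ := km_all hz (fun _ _ => le_refl _) hz0 S.toLeft
    obtain ⟨h3, h4⟩ := hS S.toRight
    rw [e1, hm, Nat.cast_add]
    refine ⟨add_le_add h1 h3, fun heq => ?_⟩
    have h5 : crs (km n fun _ _ => 0) S.toLeft S.toLeftᶜ = ((n ^ 2 / 4 : ℕ) : ℤ) := by linarith
    have h6 : crs w S.toRight S.toRightᶜ = (mc r : ℤ) := by linarith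
    have h7 := h4 h6
    obtain ⟨-, -, h8⟩ := h2 h5
    have hz1 : ∀ T : Finset (Fin n), inn (fun _ _ : Fin n => (0 : ℤ)) T = 0 := by
      intro T; simp [inn]
    rw [hz1, hz1] at h8
    rw [e2, e3]
    rcases h8 with ⟨k, hk, h8⟩ | ⟨k, hk, h8⟩
    · left
      refine ⟨?_, ?_⟩
      · rw [← Int.even_coe_nat]
        exact ⟨k, by rw [hk]; ring⟩
      · have e4 : inn (km n fun _ _ => 0) S.toLeft + inn w S.toRight -
            (inn (km n fun _ _ => 0) S.toLeftᶜ + inn w S.toRightᶜ) =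
            inn w S.toRight - inn w S.toRightᶜ := by linarith
        rw [e4]
        exact h7
    · right
      refine ⟨k, hk, ?_⟩
      rcases h8 with h8 | h8
      · left
        have e4 : inn (km n fun _ _ => 0) S.toLeft + inn w S.toRight -
            (inn (km n fun _ _ => 0) S.toLeftᶜ + inn w S.toRightᶜ) - 2 * k =
            inn w S.toRight - inn w S.toRightᶜ := by linarith
        rw [e4]
        exact h7
      · right
        have e4 : inn (km n fun _ _ => 0) S.toLeft + inn w S.toRight -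
            (inn (km n fun _ _ => 0) S.toLeftᶜ + inn w S.toRightᶜ) + 2 * k =
            inn w S.toRight - inn w S.toRightᶜ := by linarith
        rw [e4]
        exact h7

/-- the star with the center `0` and the leaves `1, …, y` -/
def star (n y : ℕ) (i j : Fin n) : ℤ :=
  if (i.val = 0 ∧ j.val ≠ 0 ∧ j.val ≤ y) ∨ (j.val = 0 ∧ i.val ≠ 0 ∧ i.val ≤ y) then 1 else 0

theorem star_sym (n y : ℕ) : Sym (star n y) := by
  constructor
  · intro i j
    unfold star
    by_cases h : (i.val = 0 ∧ j.val ≠ 0 ∧ j.val ≤ y) ∨ (j.val = 0 ∧ i.val ≠ 0 ∧ i.val ≤ y)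
    · rw [if_pos h, if_pos h.symm]
    · rw [if_neg h, if_neg (fun h' => h h'.symm)]
  · intro i
    unfold star
    rw [if_neg]
    tauto

theorem star01 (n y : ℕ) (i j : Fin n) : star n y i j = 0 ∨ star n y i j = 1 := by
  unfold star
  split_ifs
  · exact Or.inr rfl
  · exact Or.inl rfl

theorem star_tot {n y : ℕ} (h : y < n) : inn (star n y) univ = 2 * (y : ℤ) := by
  obtain ⟨n', rfl⟩ : ∃ n', n = n' + 1 := ⟨n - 1, by omega⟩
  have hcard : ∑ j : Fin n', (if (j.val + 1 ≤ y) then (1 : ℤ) else 0) = y := by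
    rw [Finset.sum_boole]
    have h1 : (univ.filter fun j : Fin n' => j.val + 1 ≤ y).card = y := by
      have h2 : (univ.filter fun j : Fin n' => j.val + 1 ≤ y) =
          (univ : Finset (Fin y)).map ⟨fun i => (⟨i.val, by omega⟩ : Fin n'),
            fun a b hab => by
              have := congrArg Fin.val hab
              exact Fin.ext this⟩ := by
        ext j
        simp only [mem_filter, mem_univ, true_and, mem_map, Function.Embedding.coeFn_mk]
        constructor
        · intro hj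
          exact ⟨⟨j.val, by omega⟩, rfl⟩
        · rintro ⟨i, hi⟩
          have h3 := congrArg Fin.val hi
          simp only at h3
          have := i.isLt
          omega
      rw [h2, card_map, card_univ, Fintype.card_fin]
    rw [h1]
  unfold inn
  rw [Fin.sum_univ_succ]
  have e1 : ∑ j : Fin (n' + 1), star (n' + 1) y 0 j = y := by
    rw [Fin.sum_univ_succ]
    have e2 : star (n' + 1) y 0 0 = 0 := (star_sym _ _).diag 0
    rw [e2, zero_add, ← hcard]
    refine Finset.sum_congr rfl fun j _ => ?_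
    unfold star
    by_cases h3 : j.val + 1 ≤ y
    · rw [if_pos h3, if_pos]
      left
      simp only [Fin.val_zero, Fin.val_succ, true_and]
      omega
    · rw [if_neg h3, if_neg]
      simp only [Fin.val_zero, Fin.val_succ]
      omega
  have e3 : ∀ i : Fin n', ∑ j : Fin (n' + 1), star (n' + 1) y i.succ j =
      if i.val + 1 ≤ y then (1 : ℤ) else 0 := by
    intro i
    rw [Fin.sum_univ_succ]
    have e4 : ∀ j : Fin n', star (n' + 1) y i.succ j.succ = 0 := by
      intro j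
      unfold star
      rw [if_neg]
      simp only [Fin.val_succ]
      omega
    rw [Finset.sum_congr rfl fun j _ => e4 j, Finset.sum_const_zero, add_zero]
    unfold star
    by_cases h3 : i.val + 1 ≤ y
    · rw [if_pos h3, if_pos]
      right
      simp only [Fin.val_zero, Fin.val_succ, true_and]
      omega
    · rw [if_neg h3, if_neg]
      simp only [Fin.val_zero, Fin.val_succ]
      omega
  rw [e1, Finset.sum_congr rfl fun i _ => e3 i, hcard]
  ring

theorem star_side {n y : ℕ} (S : Finset (Fin n)) (h0 : ∀ i ∈ S, i.val ≠ 0) :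
    inn (star n y) S = 0 := by
  unfold inn
  refine Finset.sum_eq_zero fun i hi => Finset.sum_eq_zero fun j hj => ?_
  unfold star
  rw [if_neg]
  have h1 := h0 i hi
  have h2 := h0 j hj
  tauto

/-- if no edge of the star is cut then one inside contains all of them -/
theorem star_inn {n y : ℕ} (S : Finset (Fin n))
    (h : inn (star n y) S + inn (star n y) Sᶜ = 2 * (y : ℤ)) :
    inn (star n y) S - inn (star n y) Sᶜ = 2 * y ∨ inn (star n y) S - inn (star n y) Sᶜ = -(2 * y) := by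
  by_cases h1 : ∃ i ∈ S, i.val = 0
  · obtain ⟨i, hi, hi0⟩ := h1
    have h2 : inn (star n y) Sᶜ = 0 := by
      refine star_side _ fun j hj hj0 => ?_
      have : i = j := Fin.ext (by rw [hi0, hj0])
      exact (mem_compl.1 hj) (this ▸ hi)
    left; linarith
  · have h2 : inn (star n y) S = 0 := by
      refine star_side _ fun j hj hj0 => h1 ⟨j, hj, hj0⟩
    right; linarith

theorem neg_lt {n y m : ℕ} (hn : 2 ≤ n) (h : m + y = n.choose 2) (hm : mc m = n ^ 2 / 4) : y < n := by
  by_contra hcon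
  rw [not_lt] at hcon
  obtain ⟨n', rfl⟩ : ∃ n', n = n' + 1 := ⟨n - 1, by omega⟩
  have h1 : (n' + 1).choose 2 = n' + n'.choose 2 := by
    rw [Nat.choose_succ_succ' n' 1, Nat.choose_one_right]
  have h2 : mc m ≤ mc (n'.choose 2) := mc_mono (by omega)
  have h3 : mc (n'.choose 2) ≤ n' ^ 2 / 4 := by
    have := mc_le (m := n'.choose 2) (L := [n']) (by simp [cl])
    simpa [fq] using this
  have h4 : n' ^ 2 / 4 < (n' + 1) ^ 2 / 4 := by
    rcases Nat.even_or_odd' n' with ⟨k, hk | hk⟩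
    · rw [hk, quarter_even, quarter_odd]
      nlinarith
    · rw [hk, quarter_odd]
      have : (2 * k + 1 + 1) = 2 * (k + 1) := by ring
      rw [this, quarter_even]
      nlinarith
  omega

theorem Rb_star {n y m : ℕ} (hn : 2 ≤ n) (h : m + y = n.choose 2) (hm : mc m = n ^ 2 / 4) :
    Rb m fun z => (∃ k : ℤ, (n : ℤ) = 2 * k ∧ |z| = 2 * (y : ℤ)) ∨
      ∃ k : ℤ, (n : ℤ) = 2 * k + 1 ∧ |z| ≤ 2 * (k + y) ∧ 2 * (k - y) ≤ |z| := by
  have hy := neg_lt hn h hm
  have hst := star_tot hy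
  refine ⟨Fin n, inferInstance, inferInstance, km n (star n y), km_sym (star_sym n y),
    km01 (star01 n y), ?_, fun S => ?_⟩
  · rw [km_tot (star_sym n y).diag hst]
    have : ((n.choose 2 : ℕ) : ℤ) = m + y := by exact_mod_cast h.symm
    rw [this]; ring
  · obtain ⟨h1, h2⟩ := km_all (star_sym n y) (fun i j => by
      rcases star01 n y i j with h3 | h3 <;> rw [h3] <;> norm_num) hst S
    rw [hm]
    refine ⟨h1, fun heq => ?_⟩
    obtain ⟨-, h4, h5⟩ := h2 heq
    have h6 := star_inn S h4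
    have hy0 : (0 : ℤ) ≤ y := Int.natCast_nonneg _
    rcases h5 with ⟨k, hk, h5⟩ | ⟨k, hk, h5⟩
    · left
      refine ⟨k, hk, ?_⟩
      rw [h5, abs_neg]
      rcases h6 with h6 | h6
      · rw [h6, abs_of_nonneg (by linarith)]
      · rw [h6, abs_neg, abs_of_nonneg (by linarith)]
    · right
      refine ⟨k, hk, ?_⟩
      have hk0 : 0 ≤ k := by omega
      constructor
      · rw [abs_le]
        rcases h5 with h5 | h5 <;> rcases h6 with h6 | h6 <;> constructor <;> linarith
      · rw [le_abs]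
        rcases h5 with h5 | h5 <;> rcases h6 with h6 | h6
        · left; linarith
        · left; linarith
        · right; linarith
        · right; linarith

theorem Rb_mono {m : ℕ} {p q : ℤ → Prop} (h : Rb m p) (hpq : ∀ z, p z → q z) : Rb m q := by
  obtain ⟨V, i1, i2, w, hw, h01, htot, hS⟩ := h
  exact ⟨V, i1, i2, w, hw, h01, htot, fun S => ⟨(hS S).1, fun h => hpq _ ((hS S).2 h)⟩⟩

theorem Rb_zero : Rb 0 fun z => |z| ≤ 0 := by
  refine ⟨Fin 0, inferInstance, inferInstance, fun _ _ => 0, ⟨fun _ _ => rfl, fun _ => rfl⟩,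
    fun _ _ => Or.inl rfl, by simp [inn], fun S => ?_⟩
  simp [crs, inn]

theorem Rb_B {m b : ℕ} (h : BVal m b) : Rb m fun z => |z| ≤ 2 * (b : ℤ) := by
  induction h with
  | zero => exact Rb_mono Rb_zero fun z hz => by simpa using hz
  | @even k r b hk hm _ ih =>
    refine Rb_mono (Rb_union ih hm) fun z hz => ?_
    rcases hz with ⟨-, hz⟩ | ⟨k', hk', -⟩
    · exact hz
    · exfalso; push_cast at hk'; omega
  | @odd k r b hk hm _ ih =>
    refine Rb_mono (Rb_union ih hm) fun z hz => ?_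
    rcases hz with ⟨he, -⟩ | ⟨k', hk', hz⟩
    · exfalso
      obtain ⟨x, hx⟩ := he
      omega
    · have hkk : k' = k := by push_cast at hk'; omega
      subst hkk
      rw [abs_le]
      push_cast
      rcases hz with hz | hz <;> rw [abs_le] at hz <;> constructor <;> linarith [hz.1, hz.2]
  | @evenNeg k y m hk h hm =>
    refine Rb_mono (Rb_star (by omega) h hm) fun z hz => ?_
    rcases hz with ⟨k', -, hz⟩ | ⟨k', hk', -⟩
    · rw [hz]
    · exfalso; push_cast at hk'; omega
  | @oddNeg k y m hk h hm =>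
    refine Rb_mono (Rb_star (by omega) h hm) fun z hz => ?_
    rcases hz with ⟨k', hk', -⟩ | ⟨k', hk', hz, -⟩
    · exfalso; push_cast at hk'; omega
    · have hkk : k' = k := by push_cast at hk'; omega
      subst hkk
      push_cast
      exact hz

/-- the four-wheel: `K_5` minus `{0,1}`, `{2,3}` -/
def w4 (i j : Fin 5) : ℤ :=
  if i = j then 0 else
    if (i = 0 ∧ j = 1) ∨ (i = 1 ∧ j = 0) ∨ (i = 2 ∧ j = 3) ∨ (i = 3 ∧ j = 2) then 0 else 1

theorem w4_facts : (∀ i j, w4 i j = w4 j i) ∧ (∀ i, w4 i i = 0) ∧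
    (∀ i j, w4 i j = 0 ∨ w4 i j = 1) ∧ (∑ i, ∑ j, w4 i j = 16) ∧
    ∀ S : Finset (Fin 5), (∑ i ∈ S, ∑ j ∈ Sᶜ, w4 i j ≤ 6) ∧ ((∑ i ∈ S, ∑ j ∈ Sᶜ, w4 i j = 6) →
      (∑ i ∈ S, ∑ j ∈ S, w4 i j) - (∑ i ∈ Sᶜ, ∑ j ∈ Sᶜ, w4 i j) = 4 ∨
      (∑ i ∈ S, ∑ j ∈ S, w4 i j) - (∑ i ∈ Sᶜ, ∑ j ∈ Sᶜ, w4 i j) = -4) := by
  decide +kernel

theorem mc_val {m c : ℕ} (hm : m < 1400) (h : tab m + m = 2 * c) : mc m = c := by
  have h1 := T_eq_tab m hm
  have h2 : T m = 2 * (mc m : ℤ) - m := by
    unfold T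
    rw [Int.toNat_natCast]
  omega

theorem Rb_eight : Rb 8 fun z => 4 ≤ |z| := by
  obtain ⟨h1, h2, h3, h4, h5⟩ := w4_facts
  have hmc : mc 8 = 6 := mc_val (by norm_num) (by decide +kernel)
  refine ⟨Fin 5, inferInstance, inferInstance, w4, ⟨h1, h2⟩, h3, ?_, fun S => ?_⟩
  · unfold inn
    rw [h4]; norm_num
  · rw [hmc]
    obtain ⟨h6, h7⟩ := h5 S
    refine ⟨h6, fun h => ?_⟩
    rcases h7 h with h8 | h8
    · have h9 : inn w4 S - inn w4 Sᶜ = 4 := h8
      rw [h9]; norm_num
    · have h9 : inn w4 S - inn w4 Sᶜ = -4 := h8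
      rw [h9]; norm_num

theorem exists_Rb (m : ℕ) : Rb m fun z => 2 * ((0 : ℕ) : ℤ) ≤ |z| := by
  obtain ⟨N, G, hG, hc⟩ := exists_graph_mc m
  refine ⟨Fin N, inferInstance, inferInstance, ad G, ad_sym G, fun i j => ?_,
    ord_univ_eq G m hG, fun S => ⟨?_, fun _ => by simp⟩⟩
  · unfold ad
    split_ifs
    · exact Or.inr rfl
    · exact Or.inl rfl
  · rw [← cutSize_eq]
    exact_mod_cast hc S

theorem Rb_D {m x : ℕ} (h : DVal m x) : Rb m fun z => 2 * (x : ℤ) ≤ |z| := by
  induction h with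
  | zero => exact exists_Rb 0
  | @even k r x hk hm _ ih =>
    refine Rb_mono (Rb_union ih hm) fun z hz => ?_
    rcases hz with ⟨-, hz⟩ | ⟨k', hk', -⟩
    · exact hz
    · exfalso; push_cast at hk'; omega
  | @odd k r b x hk hm hb hx =>
    refine Rb_mono (Rb_union (Rb_B hb) hm) fun z hz => ?_
    rcases hz with ⟨he, -⟩ | ⟨k', hk', hz⟩
    · exfalso
      obtain ⟨x, hx⟩ := he
      omega
    · have hkk : k' = k := by push_cast at hk'; omega
      subst hkk
      have hx' : (x : ℤ) + b = k := by exact_mod_cast hx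
      rw [le_abs]
      rcases hz with hz | hz <;> rw [abs_le] at hz
      · left; linarith [hz.1, hz.2]
      · right; linarith [hz.1, hz.2]
  | @evenNeg k y m hk h hm =>
    refine Rb_mono (Rb_star (by omega) h hm) fun z hz => ?_
    rcases hz with ⟨k', -, hz⟩ | ⟨k', hk', -⟩
    · rw [hz]
    · exfalso; push_cast at hk'; omega
  | @oddNeg k y m x hk h hm hx =>
    refine Rb_mono (Rb_star (by omega) h hm) fun z hz => ?_
    rcases hz with ⟨k', hk', -⟩ | ⟨k', hk', -, hz⟩
    · exfalso; push_cast at hk'; omega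
    · have hkk : k' = k := by push_cast at hk'; omega
      subst hkk
      have hx' : (x : ℤ) + y = k := by exact_mod_cast hx
      have e : 2 * ((x : ℕ) : ℤ) = 2 * ((k : ℤ) - y) := by linarith
      rw [e]
      exact hz
  | eight => exact Rb_mono Rb_eight fun z hz => by push_cast; linarith

theorem Rb_Mk {V : Type} [DecidableEq V] (l : ℕ) {w : V → V → ℤ} (hw : Sym w)
    (h01 : ∀ i j, w i j = 0 ∨ w i j = 1) : Mk l w := by
  refine ⟨{ Adj := fun i j => w i j = 1
            symm := ⟨fun i j h => by rw [hw.symm]; exact h⟩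
            loopless := ⟨fun i h => by rw [hw.diag] at h; exact absurd h (by norm_num)⟩ },
    fun _ => ∅, fun i j _ => ?_⟩
  rcases h01 i j with h | h
  · rw [ad_of_not_adj _ (by show ¬ w i j = 1; rw [h]; norm_num), h]
    simp
  · rw [ad_of_adj _ (by show w i j = 1; exact h), h]
    simp

theorem DVal_le (l : ℕ) {m x : ℕ} (h : DVal m x) : x ≤ Dl l m := by
  obtain ⟨V, i1, i2, w, hw, h01, htot, hS⟩ := Rb_D h
  refine le_Dl (mem_lowVals (w := w) ⟨hw, Rb_Mk l hw h01, htot, fun S => ?_⟩ fun S hSS => ?_)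
  · rw [fl_eq]
    exact (hS S).1
  · rw [fl_eq] at hSS
    exact (hS S).2 hSS

theorem BVal_ge (l : ℕ) {m b : ℕ} (h : BVal m b) : Bl l m ≤ b := by
  obtain ⟨V, i1, i2, w, hw, h01, htot, hS⟩ := Rb_B h
  refine Bl_le (mem_highVals (w := w) ⟨hw, Rb_Mk l hw h01, htot, fun S => ?_⟩ fun S hSS => ?_)
  · rw [fl_eq]
    exact (hS S).1
  · rw [fl_eq] at hSS
    exact (hS S).2 hSS

theorem DVal_twelve : DVal 12 2 := by
  have m0 : mc 0 = 0 := mc_val (by norm_num) (by decide +kernel)
  have m1 : mc 1 = 1 := mc_val (by norm_num) (by decide +kernel)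
  have m2 : mc 2 = 2 := mc_val (by norm_num) (by decide +kernel)
  have m12 : mc 12 = 8 := mc_val (by norm_num) (by decide +kernel)
  have c2 : (2 * 1).choose 2 = 1 := by decide
  have c5 : (2 * 2 + 1).choose 2 = 10 := by decide
  have b1 : BVal 1 0 := by
    have := BVal.even (k := 1) (r := 0) (b := 0) le_rfl (by rw [c2, m0]; exact m1) BVal.zero
    rw [c2] at this
    exact this
  have b2 : BVal 2 0 := by
    have := BVal.even (k := 1) (r := 1) (b := 0) le_rfl (by rw [c2, m1]; exact m2) b1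
    rw [c2] at this
    exact this
  have := DVal.odd (k := 2) (r := 2) (b := 0) (x := 2) (by norm_num)
    (by rw [c5, m2]; exact m12) b2 rfl
  rw [c5] at this
  exact this

theorem DVal_nineteen : DVal 19 1 := by
  have m0 : mc 0 = 0 := mc_val (by norm_num) (by decide +kernel)
  have m1 : mc 1 = 1 := mc_val (by norm_num) (by decide +kernel)
  have m4 : mc 4 = 3 := mc_val (by norm_num) (by decide +kernel)
  have m19 : mc 19 = 12 := mc_val (by norm_num) (by decide +kernel)
  have c2 : (2 * 1).choose 2 = 1 := by decide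
  have c3 : (2 * 1 + 1).choose 2 = 3 := by decide
  have c6 : (2 * 3).choose 2 = 15 := by decide
  have b1 : BVal 1 0 := by
    have := BVal.even (k := 1) (r := 0) (b := 0) le_rfl (by rw [c2, m0]; exact m1) BVal.zero
    rw [c2] at this
    exact this
  have d4 : DVal 4 1 := by
    have := DVal.odd (k := 1) (r := 1) (b := 0) (x := 1) le_rfl (by rw [c3, m1]; exact m4) b1 rfl
    rw [c3] at this
    exact this
  have := DVal.even (k := 3) (r := 4) (x := 1) (by norm_num) (by rw [c6, m4]; exact m19) d4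
  rw [c6] at this
  exact this

end Pool.Agent.QMA
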