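import Pool.Agent.QMA.QAll
import Pool.Agent.QMA.Cons
import Pool.Agent.MXC.Rule

/-!
# [QMA] bounds for the difference term and families with an explicit value of `Q(m)`
-/

set_option autoImplicit false

namespace Pool.Agent.QMA

open Finset Pool.Agent.MP_710317_co Pool.Agent.MP_710317_co.Rec Pool.Agent.MXC

theorem q_all (m : ℕ) (hm : 1 ≤ m) :
    mc m ≤ m ∧ Dl 0 m ≤ 2 * mc m - m ∧
    ∃ q, IsGreatest (qvalues m) q ∧ 2 * q = (m - mc m) ^ 2 + (Dl 0 m) ^ 2 :=
  q_formula m (DVal_le 0 DVal_twelve) (DVal_le 0 DVal_nineteen) hm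

/-- the extremal graph of `Dl 0 m` -/
theorem D_facts (m : ℕ) (hm : 1 ≤ m) :
    ∃ a b : ℕ, b ≤ a ∧ m = a + b + mc m ∧ a = b + Dl 0 m ∧ Dl 0 m ≤ 2 * mc m - m ∧
      (b < a → 2 * a ≤ ((2 * mc m - m) - Dl 0 m) * ((2 * mc m - m) - Dl 0 m - 1) ∨
        2 * Dl 0 m < 2 * mc m - m ∨
        (2 * Dl 0 m + 1 - (2 * mc m - m)) * (2 * mc m - m) ≤ 2 * a) := by
  obtain ⟨N, G, K, htot, hcut, hd⟩ := Dl_mem 0 m
  have hin : ∀ S : Finset (Fin N), exIn G K S = (inside G (S : Set (Fin N)) : ℤ) := by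
    intro S
    simp [exIn]
  have hG : G.edgeSet.ncard = m := by
    rw [hin] at htot
    have h1 : inside G ((univ : Finset (Fin N)) : Set (Fin N)) = G.edgeSet.ncard := by
      unfold inside
      congr 1
      ext e
      simp
    rw [h1] at htot
    exact_mod_cast htot
  rw [fl_eq] at hcut hd
  have hcrs : ∀ S, exCut G K S = crs (ad G) S Sᶜ := by
    intro S
    obtain ⟨a, b, ha, hb, hab, -⟩ := key G hG S
    unfold exCut
    rw [htot, hin, hin]
    have h2 : inn (ad G) S = 2 * (inside G (S : Set (Fin N)) : ℤ) := ord_eq_inside G S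
    have h3 : inn (ad G) Sᶜ = 2 * (inside G ((Sᶜ : Finset (Fin N)) : Set (Fin N)) : ℤ) :=
      ord_eq_inside G Sᶜ
    rw [ha] at h2
    rw [hb] at h3
    linarith
  have hcle : ∀ S, crs (ad G) S Sᶜ ≤ (mc m : ℤ) := fun S => by rw [← hcrs]; exact hcut S
  obtain ⟨S₁, hS₁⟩ := exists_cut G hG
  have hS₁' : crs (ad G) S₁ S₁ᶜ = (mc m : ℤ) := by
    refine le_antisymm (hcle S₁) ?_
    rw [← cutSize_eq]
    exact_mod_cast hS₁
  obtain ⟨a, b, hba, hmab, hq, hmin, ⟨S₂, hS₂, hab₂⟩, hflip, hsl⟩ := best_cut G hG hcle ⟨S₁, hS₁'⟩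
  have hDall : 2 * (Dl 0 m : ℤ) ≤ |inn (ad G) S₂ - inn (ad G) S₂ᶜ| := by
    have hS := hS₂
    rw [← hcrs] at hS
    have h3 := hd S₂ hS
    rw [hin, hin] at h3
    have e1 : inn (ad G) S₂ = 2 * (inside G (S₂ : Set (Fin N)) : ℤ) := ord_eq_inside G S₂
    have e2 : inn (ad G) S₂ᶜ = 2 * (inside G ((S₂ᶜ : Finset (Fin N)) : Set (Fin N)) : ℤ) :=
      ord_eq_inside G S₂ᶜ
    rw [e1, e2, ← mul_sub, abs_mul, abs_two]
    linarith
  have hD1 : Dl 0 m ≤ a - b := by
    rw [hab₂, abs_of_nonneg (by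
      have : (b : ℤ) ≤ a := by exact_mod_cast hba
      linarith)] at hDall
    omega
  have hD2 : a - b ≤ Dl 0 m := by
    refine le_Dl (mem_lowVals (w := ad G) ⟨ad_sym G, ⟨G, fun i => i.elim0, fun i j _ => by simp⟩,
      ord_univ_eq G m hG, fun S => ?_⟩ fun S hS => ?_)
    · rw [fl_eq]; exact hcle S
    · rw [fl_eq] at hS
      have h4 := hmin S hS
      have h5 : ((a - b : ℕ) : ℤ) = (a : ℤ) - b := by push_cast [hba]; ring
      rw [h5]
      exact h4
  have e : mc m - a - b = 2 * mc m - m := by omega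
  have e2 : a - b = Dl 0 m := le_antisymm hD2 hD1
  refine ⟨a, b, hba, hmab, by omega, (q_all m hm).2.1, fun h => ?_⟩
  have := hsl h
  rwa [e, e2] at this

theorem num_chk : chk (fun m => Nat.ble (Nat.mul 2 (tab (Nat.add m 8))) (Nat.add m 8) &&
    Nat.ble (Nat.add (Nat.mul (tab (Nat.add m 8)) (tab (Nat.add m 8))) 1)
      (Nat.add (Nat.mul 2 (tab (Nat.add m 8))) (Nat.mul 2 (Nat.add m 8)))) 1392 = true := by
  decide +kernel

/-- `2 T ≤ m` and `T ^ 2 - 2 T < 2 m` for `m ≥ 8` -/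
theorem num8 (m : ℕ) (hm : 8 ≤ m) : 2 * T m ≤ (m : ℤ) ∧ T m * T m + 1 ≤ 2 * T m + 2 * m := by
  rcases Nat.lt_or_ge m 1400 with h | h
  · have h1 := chk_all num_chk (m - 8) (by omega)
    have e : Nat.add (m - 8) 8 = m := by
      show m - 8 + 8 = m
      omega
    rw [e, Bool.and_eq_true] at h1
    have h2 : 2 * tab m ≤ m := Nat.le_of_ble_eq_true h1.1
    have h3 : tab m * tab m + 1 ≤ 2 * tab m + 2 * m := Nat.le_of_ble_eq_true h1.2
    rw [T_eq_tab m h]
    constructor
    · exact_mod_cast h2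
    · exact_mod_cast h3
  · have h1 := T_sq2 m
    have h0 := T_nonneg m
    have h' : (1400 : ℤ) ≤ m := by exact_mod_cast h
    constructor
    · nlinarith
    · nlinarith

/-- the upper bound for `D` -/
theorem D_upper (m : ℕ) (hm : 8 ≤ m) :
    (4 * T m - 2) * (Dl 0 m : ℤ) ≤ m + 2 * T m * T m - 3 * T m := by
  obtain ⟨a, b, hba, hmab, hab, hD, hsl⟩ := D_facts m (by omega)
  have hT : T m = 2 * (mc m : ℤ) - m := by
    unfold T
    rw [Int.toNat_natCast]
  have hT0 := T_nonneg m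
  obtain ⟨n1, n2⟩ := num8 m hm
  have hTn : ((2 * mc m - m : ℕ) : ℤ) = T m := by omega
  have hDT : (Dl 0 m : ℤ) ≤ T m := by rw [← hTn]; exact_mod_cast hD
  have hD0 : (0 : ℤ) ≤ (Dl 0 m : ℤ) := Int.natCast_nonneg _
  have h4a : 4 * (a : ℤ) = m - T m + 2 * Dl 0 m := by rw [hT]; push_cast [hab] at *; omega
  have hlow : 2 * (Dl 0 m : ℤ) < T m → (4 * T m - 2) * (Dl 0 m : ℤ) ≤ m + 2 * T m * T m - 3 * T m := by
    intro h
    have h1 : 1 ≤ T m := by linarith
    nlinarith [mul_le_mul_of_nonneg_left h.le (by linarith : 0 ≤ 2 * T m - 1)]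
  rcases Nat.eq_or_lt_of_le hba with h | h
  · have h1 : Dl 0 m = 0 := by omega
    rw [h1]
    have : 0 ≤ (2 * T m - 1) * (T m - 1) := by
      rcases le_or_gt (T m) 0 with h2 | h2
      · have : T m = 0 := le_antisymm h2 hT0
        rw [this]; norm_num
      · exact mul_nonneg (by linarith) (by linarith [Int.add_one_le_iff.2 h2])
    push_cast
    have hm' : (8 : ℤ) ≤ m := by exact_mod_cast hm
    nlinarith
  · rcases hsl h with h1 | h1 | h1
    · by_cases h2 : 2 * (Dl 0 m : ℤ) < T m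
      · exact hlow h2
      · exfalso
        rw [not_lt] at h2
        have h3 : 2 * (a : ℤ) ≤ (T m - Dl 0 m) * (T m - Dl 0 m - 1) := by
          rcases Nat.eq_zero_or_pos ((2 * mc m - m) - Dl 0 m) with h6 | h6
          · rw [h6] at h1
            have h7 : T m - Dl 0 m = 0 := by omega
            rw [h7]
            have h8 : 2 * a ≤ 0 := by simpa using h1
            have : 2 * (a : ℤ) ≤ 0 := by exact_mod_cast h8
            linarith
          · have h7 : (((2 * mc m - m) - Dl 0 m : ℕ) : ℤ) = T m - Dl 0 m := by omega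
            have h8 : (((2 * mc m - m) - Dl 0 m - 1 : ℕ) : ℤ) = T m - Dl 0 m - 1 := by omega
            rw [← h8, ← h7]
            exact_mod_cast h1
        -- `T - D ≤ T / 2`
        have h4 : 2 * (T m - Dl 0 m) ≤ T m := by linarith
        have h5 : 4 * ((T m - Dl 0 m) * (T m - Dl 0 m - 1)) ≤ T m * T m - 2 * (T m - Dl 0 m) * 2 +
            0 := by
          nlinarith [mul_self_nonneg (T m - 2 * (T m - Dl 0 m)),
            mul_nonneg (by linarith : 0 ≤ T m - 2 * (T m - Dl 0 m)) hT0,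
            mul_nonneg (by linarith : 0 ≤ T m - 2 * (T m - Dl 0 m)) (by linarith : 0 ≤ T m - Dl 0 m)]
        nlinarith
    · have h2 : 2 * (Dl 0 m : ℤ) < T m := by omega
      exact hlow h2
    · rcases Nat.lt_or_ge (2 * Dl 0 m) (2 * mc m - m) with h6 | h6
      · exact hlow (by omega)
      · have h7 : ((2 * Dl 0 m + 1 - (2 * mc m - m) : ℕ) : ℤ) = 2 * (Dl 0 m : ℤ) + 1 - T m := by omega
        have h8 : (2 * (Dl 0 m : ℤ) + 1 - T m) * T m ≤ 2 * a := by
          rw [← h7, ← hTn]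
          exact_mod_cast h1
        nlinarith

theorem num3_chk : chk (fun m => Nat.ble (Nat.add (Nat.mul 2 (Nat.mul (tab (Nat.add m 1)) (tab (Nat.add m 1)))) 5)
    (Nat.add (Nat.mul 11 (tab (Nat.add m 1))) (Nat.mul 3 (Nat.add m 1)))) 1399 = true := by
  decide +kernel

theorem num3 (r : ℕ) (hr : 1 ≤ r) : 2 * (T r * T r) + 5 ≤ 11 * T r + 3 * (r : ℤ) := by
  rcases Nat.lt_or_ge r 1400 with h | h
  · have h1 := chk_all num3_chk (r - 1) (by omega)
    have e : Nat.add (r - 1) 1 = r := by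
      show r - 1 + 1 = r
      omega
    rw [e] at h1
    have h2 : 2 * (tab r * tab r) + 5 ≤ 11 * tab r + 3 * r := Nat.le_of_ble_eq_true h1
    rw [T_eq_tab r h]
    exact_mod_cast h2
  · have h1 := T_sq2 r
    have h0 := T_nonneg r
    have h' : (1400 : ℤ) ≤ r := by exact_mod_cast h
    nlinarith

theorem T_def (m : ℕ) : T m = 2 * (mc m : ℤ) - m := by
  unfold T
  rw [Int.toNat_natCast]

theorem choose_odd (k : ℕ) : (2 * k + 1).choose 2 = k * (2 * k + 1) := by
  have := two_choose_int (2 * k + 1)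
  push_cast at this
  have h : (((2 * k + 1).choose 2 : ℕ) : ℤ) = (k : ℤ) * (2 * k + 1) := by nlinarith
  exact_mod_cast h

theorem not_exc {k r : ℕ} (hr : r ≤ 2 * k) : ¬ Exc ((2 * k + 1).choose 2 + r) := by
  rw [choose_odd]
  intro h
  have key : ∀ M K : ℕ, K * (2 * K + 1) + 2 * K < M → M < (K + 1) * (2 * (K + 1) + 1) →
      k * (2 * k + 1) + r ≠ M := by
    intro M K h1 h2 h3
    rcases Nat.lt_or_ge K k with h4 | h4
    · have h5 : (K + 1) * (2 * (K + 1) + 1) ≤ k * (2 * k + 1) :=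
        Nat.mul_le_mul h4 (by omega)
      omega
    · have h5 : k * (2 * k + 1) ≤ K * (2 * K + 1) := Nat.mul_le_mul h4 (by omega)
      omega
  rcases h with h | h | h | h
  · exact key 99 6 (by norm_num) (by norm_num) h
  · exact key 1068 22 (by norm_num) (by norm_num) h
  · exact key 2764 36 (by norm_num) (by norm_num) h
  · exact key 4827 48 (by norm_num) (by norm_num) h

theorem mc_odd {k r : ℕ} (hr : r ≤ 2 * k) (hmc : mc r ≤ k + 1) :
    mc ((2 * k + 1).choose 2 + r) = (2 * k + 1) ^ 2 / 4 + mc r := by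
  have h := mc_rule (2 * k + 1) r (by omega) (by omega)
  rw [if_neg (not_exc hr)] at h
  have e : (2 * k + 1 + 1) / 2 = k + 1 := by omega
  rw [e, min_eq_right hmc] at h
  exact h

theorem choose_even (k : ℕ) : ((2 * k).choose 2 : ℕ) + k = 2 * k * k := by
  have := two_choose_int (2 * k)
  push_cast at this
  have h : (((2 * k).choose 2 : ℕ) : ℤ) + k = 2 * (k : ℤ) * k := by nlinarith
  exact_mod_cast h

theorem sq_par (k : ℕ) : ∃ e : ℕ, k * k + k = 2 * e := by
  obtain ⟨e, he⟩ := Nat.even_mul_succ_self k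
  exact ⟨e, by rw [← Nat.mul_succ, he]; ring⟩

/-- the parity of the values -/
theorem BVal_par {r b : ℕ} (h : BVal r b) : ∃ e : ℤ, (r : ℤ) = mc r + b + 2 * e := by
  induction h with
  | zero =>
    refine ⟨0, ?_⟩
    rw [mc_val (m := 0) (c := 0) (by norm_num) (by decide +kernel)]
    norm_num
  | @even k r b hk hm _ ih =>
    obtain ⟨e, he⟩ := ih
    rw [hm, quarter_even]
    obtain ⟨f, hf⟩ := sq_par k
    have h1 : (((2 * k).choose 2 : ℕ) : ℤ) + k = 2 * k * k := by exact_mod_cast choose_even k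
    have h2 : (k : ℤ) * k + k = 2 * f := by exact_mod_cast hf
    refine ⟨e + f - k, ?_⟩
    push_cast
    linarith
  | @odd k r b hk hm _ ih =>
    obtain ⟨e, he⟩ := ih
    rw [hm, quarter_odd, choose_odd]
    obtain ⟨f, hf⟩ := sq_par k
    have h2 : (k : ℤ) * k + k = 2 * f := by exact_mod_cast hf
    refine ⟨e + f - k, ?_⟩
    push_cast
    linarith
  | @evenNeg k y m hk h hm =>
    rw [hm, quarter_even]
    obtain ⟨f, hf⟩ := sq_par k
    have h1 : (((2 * k).choose 2 : ℕ) : ℤ) + k = 2 * k * k := by exact_mod_cast choose_even k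
    have h2 : (k : ℤ) * k + k = 2 * f := by exact_mod_cast hf
    have h3 : (m : ℤ) + y = (((2 * k).choose 2 : ℕ) : ℤ) := by exact_mod_cast h
    refine ⟨f - k - y, ?_⟩
    push_cast
    linarith
  | @oddNeg k y m hk h hm =>
    rw [hm, quarter_odd]
    obtain ⟨f, hf⟩ := sq_par k
    have h2 : (k : ℤ) * k + k = 2 * f := by exact_mod_cast hf
    have h3 : (m : ℤ) + y = (k : ℤ) * (2 * k + 1) := by
      rw [choose_odd] at h
      exact_mod_cast h
    refine ⟨f - k - y, ?_⟩
    push_cast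
    linarith

theorem DVal_par {m x : ℕ} (h : DVal m x) : ∃ e : ℤ, (m : ℤ) = mc m + x + 2 * e := by
  induction h with
  | zero =>
    refine ⟨0, ?_⟩
    rw [mc_val (m := 0) (c := 0) (by norm_num) (by decide +kernel)]
    norm_num
  | @even k r x hk hm _ ih =>
    obtain ⟨e, he⟩ := ih
    rw [hm, quarter_even]
    obtain ⟨f, hf⟩ := sq_par k
    have h1 : (((2 * k).choose 2 : ℕ) : ℤ) + k = 2 * k * k := by exact_mod_cast choose_even k
    have h2 : (k : ℤ) * k + k = 2 * f := by exact_mod_cast hf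
    refine ⟨e + f - k, ?_⟩
    push_cast
    linarith
  | @odd k r b x hk hm hB hx =>
    obtain ⟨e, he⟩ := BVal_par hB
    rw [hm, quarter_odd, choose_odd]
    obtain ⟨f, hf⟩ := sq_par k
    have h2 : (k : ℤ) * k + k = 2 * f := by exact_mod_cast hf
    have h3 : (x : ℤ) + b = k := by exact_mod_cast hx
    refine ⟨e + f - k + b - 0, ?_⟩
    push_cast
    linarith
  | @evenNeg k y m hk h hm =>
    rw [hm, quarter_even]
    obtain ⟨f, hf⟩ := sq_par k
    have h1 : (((2 * k).choose 2 : ℕ) : ℤ) + k = 2 * k * k := by exact_mod_cast choose_even k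
    have h2 : (k : ℤ) * k + k = 2 * f := by exact_mod_cast hf
    have h3 : (m : ℤ) + y = (((2 * k).choose 2 : ℕ) : ℤ) := by exact_mod_cast h
    refine ⟨f - k - y, ?_⟩
    push_cast
    linarith
  | @oddNeg k y m x hk h hm hx =>
    rw [hm, quarter_odd]
    obtain ⟨f, hf⟩ := sq_par k
    have h2 : (k : ℤ) * k + k = 2 * f := by exact_mod_cast hf
    have h3 : (m : ℤ) + y = (k : ℤ) * (2 * k + 1) := by
      rw [choose_odd] at h
      exact_mod_cast h
    have h4 : (x : ℤ) + y = k := by exact_mod_cast hx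
    refine ⟨f - k, ?_⟩
    push_cast
    linarith
  | eight =>
    refine ⟨0, ?_⟩
    rw [mc_val (m := 8) (c := 6) (by norm_num) (by decide +kernel)]
    norm_num

/-- the parity of `D` -/
theorem D_par (m : ℕ) (hm : 1 ≤ m) : ∃ e : ℤ, (m : ℤ) = mc m + Dl 0 m + 2 * e := by
  obtain ⟨a, b, -, h1, h2, -, -⟩ := D_facts m hm
  refine ⟨b, ?_⟩
  have h3 : (m : ℤ) = a + b + mc m := by exact_mod_cast h1
  have h4 : (a : ℤ) = b + Dl 0 m := by exact_mod_cast h2
  linarith

/-- the criterion for equality -/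
theorem D_eq {m x : ℕ} (hm : 8 ≤ m) (h : DVal m x)
    (hx : m + 2 * T m * T m - 3 * T m < (4 * T m - 2) * ((x : ℤ) + 2)) : Dl 0 m = x := by
  have h1 := DVal_le 0 h
  have h2 := D_upper m hm
  obtain ⟨e, he⟩ := DVal_par h
  obtain ⟨f, hf⟩ := D_par m (by omega)
  by_contra hne
  have h3 : (x : ℤ) + 2 ≤ Dl 0 m := by omega
  have h4 : 0 ≤ 4 * T m - 2 := by
    have h5 : 0 < T m := by
      rcases eq_or_lt_of_le (T_nonneg m) with h6 | h6
      · exfalso
        have h7 := T_edw m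
        rw [← h6] at h7
        have : (8 : ℤ) ≤ m := by exact_mod_cast hm
        linarith
      · exact h6
    linarith [Int.add_one_le_iff.2 h5]
  have h5 := mul_le_mul_of_nonneg_left h3 h4
  linarith

/-- complete graphs of odd order with few additional edges -/
theorem D_odd {k r b : ℕ} (hk : 1 ≤ k) (hr : r ≤ 2 * k) (hmc : mc r ≤ k + 1) (hB : BVal r b)
    (hb : b = 0 ∨ (b = 1 ∧ 2 * (T r * T r) + r + 2 < 4 * (k : ℤ) + 7 * T r)) :
    Dl 0 ((2 * k + 1).choose 2 + r) = k - b := by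
  have hm := mc_odd hr hmc
  have hbk : b ≤ k := by omega
  have hval : DVal ((2 * k + 1).choose 2 + r) (k - b) :=
    DVal.odd (x := k - b) hk hm hB (by omega)
  have hlow : k - b ≤ Dl 0 ((2 * k + 1).choose 2 + r) := DVal_le 0 hval
  set m := (2 * k + 1).choose 2 + r with hmdef
  have hmv : m = k * (2 * k + 1) + r := by rw [hmdef, choose_odd]
  rw [quarter_odd] at hm
  have hT : T m = k + T r := by
    rw [T_def, T_def, hm, hmv]; push_cast; ring
  have hT0 := T_nonneg r
  have hk1 : (1 : ℤ) ≤ k := by exact_mod_cast hk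
  rcases Nat.eq_or_lt_of_le hk with h1 | h1
  · -- `k = 1`
    obtain ⟨a, b', hba, hmab, hab, -, -⟩ := D_facts m (by rw [hmv]; nlinarith)
    obtain ⟨e, he⟩ := DVal_par hval
    obtain ⟨f, hf⟩ := D_par m (by rw [hmv]; nlinarith)
    have h2 : mc r = r := by
      have h5 : r = 0 ∨ r = 1 ∨ r = 2 := by omega
      rcases h5 with h5 | h5 | h5 <;> rw [h5]
      · exact mc_val (by norm_num) (by decide +kernel)
      · exact mc_val (by norm_num) (by decide +kernel)
      · exact mc_val (by norm_num) (by decide +kernel)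
    have hb1 : b = 0 := by
      rcases hb with h | ⟨h, h3⟩
      · exact h
      · exfalso
        rw [T_def, h2, ← h1] at h3
        have h4 : (2 * (r : ℤ) - r) = r := by ring
        rw [h4] at h3
        have h5 : r = 0 ∨ r = 1 ∨ r = 2 := by omega
        have h6 := hB
        rw [h] at h6
        obtain ⟨e', he'⟩ := BVal_par h6
        rw [h2] at he'
        omega
    obtain rfl : k = 1 := h1.symm
    subst hb1
    have e1 : m = 3 + r := by rw [hmv]
    have e2 : mc m = 2 + r := by rw [hm, h2]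
    have e3 : Dl 0 m ≤ 1 := by omega
    omega
  · have h8 : 8 ≤ m := by rw [hmv]; nlinarith
    refine D_eq h8 hval ?_
    have h4 : (m : ℤ) = 2 * k * k + k + r := by rw [hmv]; push_cast; ring
    rw [hT, h4]
    have h9 : (r : ℤ) ≤ 2 * k := by exact_mod_cast hr
    rcases hb with hb | ⟨hb, h3⟩
    · rw [hb, Nat.sub_zero]
      rcases Nat.eq_zero_or_pos r with h7 | h7
      · have h10 : T (r : ℤ) = 0 := by
          rw [h7]
          have := T_nonpos (m := ((0 : ℕ) : ℤ)) (by simp)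
          simpa using this
        rw [h10, h7]
        push_cast
        nlinarith
      · have h8 := num3 r h7
        nlinarith
    · rw [hb]
      have h10 : ((k - 1 : ℕ) : ℤ) = (k : ℤ) - 1 := by omega
      rw [h10]
      nlinarith

/-- complete graphs of odd order minus an edge -/
theorem D_odd_neg {k m : ℕ} (hk : 2 ≤ k) (h : m + 1 = (2 * k + 1).choose 2) :
    mc m = k * (k + 1) ∧ Dl 0 m = k - 1 := by
  have hmv : m + 1 = k * (2 * k + 1) := by rw [h, choose_odd]
  obtain ⟨k', rfl⟩ : ∃ k', k = k' + 1 := ⟨k - 1, by omega⟩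
  -- `mc m`
  have hmc : mc m = (2 * (k' + 1) + 1) ^ 2 / 4 := by
    have h1 : (2 * (k' + 1)).choose 2 = (k' + 1) * (2 * k' + 1) := by
      have := two_choose_int (2 * (k' + 1))
      push_cast at this
      have h : (((2 * (k' + 1)).choose 2 : ℕ) : ℤ) = ((k' : ℤ) + 1) * (2 * k' + 1) := by nlinarith
      exact_mod_cast h
    have h2 : m = (2 * (k' + 1)).choose 2 + (2 * k' + 1) := by
      rw [h1]
      have : (k' + 1) * (2 * (k' + 1) + 1) = (k' + 1) * (2 * k' + 1) + (2 * k' + 1) + 1 := by ring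
      omega
    have h3 := mc_rule (2 * (k' + 1)) (2 * k' + 1) (by omega) (by omega)
    rw [← h2] at h3
    have h4 : ¬ Exc m := by
      intro h
      have key : ∀ M K : ℕ, K * (2 * K + 1) < M + 1 → M + 1 < (K + 1) * (2 * (K + 1) + 1) → m ≠ M := by
        intro M K h1 h2 h3
        rcases Nat.lt_or_ge K (k' + 1) with h4 | h4
        · have h5 : (K + 1) * (2 * (K + 1) + 1) ≤ (k' + 1) * (2 * (k' + 1) + 1) :=
            Nat.mul_le_mul h4 (by omega)
          omega
        · have h5 : (k' + 1) * (2 * (k' + 1) + 1) ≤ K * (2 * K + 1) := Nat.mul_le_mul h4 (by omega)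
          omega
      rcases h with h | h | h | h
      · exact key 99 6 (by norm_num) (by norm_num) h
      · exact key 1068 22 (by norm_num) (by norm_num) h
      · exact key 2764 36 (by norm_num) (by norm_num) h
      · exact key 4827 48 (by norm_num) (by norm_num) h
    rw [if_neg h4] at h3
    have h5 : k' + 1 ≤ mc (2 * k' + 1) := by
      have := T_nonneg ((2 * k' + 1 : ℕ) : ℤ)
      rw [T_def] at this
      push_cast at this
      omega
    have h6 : (2 * (k' + 1) + 1) / 2 = k' + 1 := by omega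
    rw [h6, min_eq_left h5, quarter_even] at h3
    rw [quarter_odd]
    have : (k' + 1) * (k' + 1) + (k' + 1) = (k' + 1) * (k' + 1 + 1) := by ring
    omega
  have hlow : k' ≤ Dl 0 m := DVal_le 0 (DVal.oddNeg (k := k' + 1) (y := 1) (x := k') (by omega) h hmc rfl)
  rw [quarter_odd] at hmc
  refine ⟨hmc, ?_⟩
  have h8 : 8 ≤ m := by nlinarith
  have hD := D_upper m h8
  have hm4 : (m : ℤ) = 2 * (k' + 1) * (k' + 1) + (k' + 1) - 1 := by
    have : ((m + 1 : ℕ) : ℤ) = ((k' + 1) * (2 * (k' + 1) + 1) : ℕ) := by rw [hmv]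
    push_cast at this
    linarith
  have hT : T m = (k' : ℤ) + 1 + 1 := by
    rw [T_def, hmc, hm4]; push_cast; ring
  rw [hT] at hD
  by_contra hne
  have h2 : (k' : ℤ) + 1 ≤ Dl 0 m := by
    have : k' + 1 ≤ Dl 0 m := by omega
    exact_mod_cast this
  have h3 : (4 * ((k' : ℤ) + 1 + 1) - 2) * ((k' : ℤ) + 1) ≤
      (4 * ((k' : ℤ) + 1 + 1) - 2) * (Dl 0 m : ℤ) := mul_le_mul_of_nonneg_left h2 (by linarith)
  rw [hm4] at hD
  nlinarith

end Pool.Agent.QMA
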