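import Pool.Agent.MXC.Fin

/-!
# `Q(m)` for all `m ≥ 980`

For all `m ≥ 980` the largest value `Q(m)` of the least sum of the squares of the numbers of edges
inside the two parts is `((m - mc m) ^ 2 + D ^ 2) / 2`, where `mc m` is the explicit least
Max-Cut (the least `∑ ⌊B ^ 2 / 4⌋` over the lists with `∑ C(B, 2) ≥ m`) and `D = Dl 0 m` is the
largest (over the graphs with `m` edges and largest cut `mc m`) least (over the maximum cuts)
difference of the numbers of edges inside the two parts; `D ≤ 2 mc(m) - m`.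
-/

namespace Pool.Agent.QMA.FormulaQVariant

open Pool.Agent.MP_710317_co Pool.Agent.MP_710317_co.Rec Pool.Agent.MXC

theorem result (m : ℕ) (hm : 980 ≤ m) :
    fl 0 m = mc m ∧ mc m ≤ m ∧ Dl 0 m ≤ 2 * mc m - m ∧
      ∃ q, IsGreatest (qvalues m) q ∧ 2 * q = (m - mc m) ^ 2 + (Dl 0 m) ^ 2 ∧
        (m - mc m) ^ 2 ≤ 2 * q ∧ 2 * q ≤ (m - mc m) ^ 2 + (2 * mc m - m) ^ 2 := by
  obtain ⟨h1, h2, q, h3, h4⟩ := q_formula9 m hm
  refine ⟨fl_eq 0 m, h1, h2, q, h3, h4, ?_, ?_⟩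
  · rw [h4]
    exact Nat.le_add_right _ _
  · rw [h4]
    exact Nat.add_le_add_left (Nat.pow_le_pow_left h2 2) _

end Pool.Agent.QMA.FormulaQVariant
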