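import Pool.Agent.MXC.TG

/-!
# [QMA] numerical facts for the formula for `Q(m)`, `m < 980`
-/

set_option autoImplicit false

namespace Pool.Agent.QMA

open Pool.Agent.MXC

/-- `d` (the difference of the insides) with `2 a` edges, `s` the surplus: larger than allowed (`B < d ^ 2`)
although the conclusion of the lemma `slack` holds -/
def bad (s B a d : ℕ) : Bool :=
  Nat.ble (Nat.add B 1) (Nat.mul d d) && (Nat.ble d s &&
    (Nat.ble (Nat.mul 2 a) (Nat.mul (Nat.sub s d) (Nat.sub (Nat.sub s d) 1)) ||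
      (Nat.ble (Nat.add (Nat.mul 2 d) 1) s ||
        Nat.ble (Nat.mul (Nat.sub (Nat.add (Nat.mul 2 d) 1) s) s) (Nat.mul 2 a))))

/-- all `a` with `a + b = u`, `b < a` -/
def good (s u B : ℕ) : Bool :=
  Nat.ble (Nat.mul s s) B || (Nat.ble (Nat.mul u u) B ||
    chk (fun a => Nat.ble (Nat.mul 2 a) u || !(bad s B a (Nat.sub (Nat.mul 2 a) u))) (Nat.add u 1))

theorem good_spec {s u B : ℕ} (h : good s u B = true) {a b : ℕ} (hu : a + b = u) (hab : b < a)
    (hs : a - b ≤ s)
    (halt : 2 * a ≤ (s - (a - b)) * (s - (a - b) - 1) ∨ 2 * (a - b) < s ∨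
      (2 * (a - b) + 1 - s) * s ≤ 2 * a) : (a - b) * (a - b) ≤ B := by
  unfold good at h
  rw [Bool.or_eq_true, Bool.or_eq_true] at h
  rcases h with h | h | h
  · have h1 : s * s ≤ B := Nat.le_of_ble_eq_true h
    exact (Nat.mul_le_mul hs hs).trans h1
  · have h1 : u * u ≤ B := Nat.le_of_ble_eq_true h
    have h2 : a - b ≤ u := by omega
    exact (Nat.mul_le_mul h2 h2).trans h1
  · have h1 := chk_all h a (by show a < u + 1; omega)
    rw [Bool.or_eq_true] at h1
    rcases h1 with h1 | h1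
    · have h2 : 2 * a ≤ u := Nat.le_of_ble_eq_true h1
      omega
    · have h2 : Nat.sub (Nat.mul 2 a) u = a - b := by
        show 2 * a - u = a - b
        omega
      rw [h2] at h1
      by_contra hcon
      rw [not_le] at hcon
      have h3 : bad s B a (a - b) = true := by
        unfold bad
        rw [Bool.and_eq_true, Bool.and_eq_true, Bool.or_eq_true, Bool.or_eq_true]
        refine ⟨Nat.ble_eq_true_of_le (by show B + 1 ≤ (a - b) * (a - b); omega),
          Nat.ble_eq_true_of_le hs, ?_⟩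
        rcases halt with h4 | h4 | h4
        · exact Or.inl (Nat.ble_eq_true_of_le h4)
        · exact Or.inr (Or.inl (Nat.ble_eq_true_of_le (by show 2 * (a - b) + 1 ≤ s; omega)))
        · exact Or.inr (Or.inr (Nat.ble_eq_true_of_le h4))
      rw [h3] at h1
      exact absurd h1 (by decide)

/-- the two exceptional pairs -/
def exc (m j : ℕ) : Bool := (Nat.beq m 12 && Nat.beq j 1) || (Nat.beq m 19 && Nat.beq j 2)

theorem upper_chk : chk (fun m => chk (fun j => exc (Nat.add m 1) (Nat.add j 1) ||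
    good (Nat.add (tab (Nat.add m 1)) (Nat.mul 2 (Nat.add j 1)))
      (Nat.sub (Nat.div (Nat.sub (Nat.add m 1) (tab (Nat.add m 1))) 2) (Nat.add j 1))
      (Nat.mul (Nat.add j 1) (Nat.sub (Nat.sub (Nat.add m 1) (tab (Nat.add m 1))) (Nat.add j 1))))
    (Nat.div (Nat.sub (Nat.add m 1) (tab (Nat.add m 1))) 2)) 979 = true := by
  decide +kernel

theorem lower_chk : chk (fun m => good (tab (Nat.add m 1))
    (Nat.div (Nat.sub (Nat.add m 1) (tab (Nat.add m 1))) 2)
    (Nat.add (Nat.sub (Nat.add m 1) (tab (Nat.add m 1))) 1)) 979 = true := by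
  decide +kernel

theorem par_chk : chk (fun m => Nat.beq (Nat.mod (Nat.sub (Nat.add m 1) (tab (Nat.add m 1))) 2) 0 &&
    Nat.ble (tab (Nat.add m 1)) (Nat.add m 1)) 979 = true := by
  decide +kernel

theorem par_spec {m : ℕ} (h1 : 1 ≤ m) (h2 : m < 980) : (m - tab m) % 2 = 0 ∧ tab m ≤ m := by
  have h := chk_all par_chk (m - 1) (by omega)
  have e : Nat.add (m - 1) 1 = m := by
    show m - 1 + 1 = m
    omega
  rw [e, Bool.and_eq_true] at h
  exact ⟨Nat.eq_of_beq_eq_true h.1, Nat.le_of_ble_eq_true h.2⟩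

theorem upper_spec {m j : ℕ} (h1 : 1 ≤ m) (h2 : m < 980) (hj : 1 ≤ j) (hj2 : j ≤ (m - tab m) / 2)
    (he : ¬ ((m = 12 ∧ j = 1) ∨ (m = 19 ∧ j = 2))) :
    good (tab m + 2 * j) ((m - tab m) / 2 - j) (j * (m - tab m - j)) = true := by
  have h := chk_all upper_chk (m - 1) (by omega)
  have e : Nat.add (m - 1) 1 = m := by
    show m - 1 + 1 = m
    omega
  simp only [e] at h
  have h3 := chk_all h (j - 1) (by show j - 1 < (m - tab m) / 2; omega)
  have e' : Nat.add (j - 1) 1 = j := by
    show j - 1 + 1 = j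
    omega
  rw [e', Bool.or_eq_true] at h3
  rcases h3 with h3 | h3
  · exfalso
    apply he
    unfold exc at h3
    rw [Bool.or_eq_true, Bool.and_eq_true, Bool.and_eq_true] at h3
    rcases h3 with h3 | h3
    · exact Or.inl ⟨Nat.eq_of_beq_eq_true h3.1, Nat.eq_of_beq_eq_true h3.2⟩
    · exact Or.inr ⟨Nat.eq_of_beq_eq_true h3.1, Nat.eq_of_beq_eq_true h3.2⟩
  · exact h3

theorem lower_spec {m : ℕ} (h1 : 1 ≤ m) (h2 : m < 980) :
    good (tab m) ((m - tab m) / 2) (m - tab m + 1) = true := by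
  have h := chk_all lower_chk (m - 1) (by omega)
  have e : Nat.add (m - 1) 1 = m := by
    show m - 1 + 1 = m
    omega
  rw [e] at h
  exact h

end Pool.Agent.QMA
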