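import Pool.Agent.MP_710317_co.Rec.FlipB

/-!
# [QMA] maximum cuts of simple graphs with a large difference of the two insides
-/

set_option autoImplicit false

namespace Pool.Agent.QMA

open Finset Pool.Agent.MP_710317_co Pool.Agent.MP_710317_co.Rec

variable {V : Type*} [Fintype V] [DecidableEq V]

theorem inn_erase {w : V → V → ℤ} (hw : Sym w) (S : Finset V) {v : V} (hv : v ∈ S) :
    inn w (S.erase v) = inn w S - 2 * ∑ j ∈ S, w v j := by
  unfold inn
  have h1 : ∀ i ∈ S.erase v, ∑ j ∈ S.erase v, w i j = ∑ j ∈ S, w i j - w v i := by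
    intro i _
    rw [← Finset.add_sum_erase S (fun j => w i j) hv, hw.symm i v]
    ring
  rw [Finset.sum_congr rfl h1, Finset.sum_sub_distrib]
  have h2 := Finset.add_sum_erase S (fun i => ∑ j ∈ S, w i j) hv
  have h3 := Finset.add_sum_erase S (fun i => w v i) hv
  rw [hw.diag v] at h3
  linarith

theorem inn_erase_compl {w : V → V → ℤ} (hw : Sym w) (S : Finset V) {v : V} (hv : v ∈ S) :
    inn w (S.erase v)ᶜ = inn w Sᶜ + 2 * ∑ j ∈ Sᶜ, w v j := by
  have h1 : (S.erase v)ᶜ = insert v Sᶜ := by
    ext x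
    simp only [mem_compl, mem_erase, mem_insert]
    tauto
  have hv' : v ∉ Sᶜ := by simpa using hv
  have h2 := inn_erase hw (insert v Sᶜ) (mem_insert_self v Sᶜ)
  rw [Finset.erase_insert hv', Finset.sum_insert hv', hw.diag v] at h2
  rw [h1]
  linarith

/-- at most `k (k - 1)` ordered pairs inside a set with `k` elements -/
theorem inn_le_card {w : V → V → ℤ} (hw : Sym w) (h1 : ∀ i j, w i j ≤ 1) (Z : Finset V) :
    inn w Z ≤ (Z.card : ℤ) * ((Z.card : ℤ) - 1) := by
  unfold inn
  calc ∑ i ∈ Z, ∑ j ∈ Z, w i j ≤ ∑ i ∈ Z, ((Z.card : ℤ) - 1) := by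
        refine Finset.sum_le_sum fun i hi => ?_
        rw [← Finset.add_sum_erase Z (fun j => w i j) hi]
        have h2 : ∑ j ∈ Z.erase i, w i j ≤ ∑ j ∈ Z.erase i, (1 : ℤ) :=
          Finset.sum_le_sum fun j _ => h1 i j
        rw [Finset.sum_const, nsmul_eq_mul, mul_one, Finset.card_erase_of_mem hi] at h2
        have h3 : 1 ≤ Z.card := Finset.card_pos.2 ⟨i, hi⟩
        rw [Nat.cast_sub h3] at h2
        simp only [hw.diag i, zero_add]
        push_cast at h2
        linarith
    _ = (Z.card : ℤ) * ((Z.card : ℤ) - 1) := by rw [Finset.sum_const, nsmul_eq_mul]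

/-- [QMA-SLACK]  Let `(S, Sᶜ)` be a maximum cut (size `c`) of a simple graph, `a` and `b` the numbers of
edges inside `S` and `Sᶜ`, `d = a - b > 0` the least difference over the maximum cuts and
`s = c - a - b` the surplus. -/
theorem slack {w : V → V → ℤ} (hw : Sym w) (h0 : ∀ i j, 0 ≤ w i j) (h1 : ∀ i j, w i j ≤ 1)
    {c a b : ℤ} (hc : ∀ S, crs w S Sᶜ ≤ c) {S : Finset V} (hS : crs w S Sᶜ = c)
    (ha : inn w S = 2 * a) (hb : inn w Sᶜ = 2 * b) (hab : b < a)
    (hmin : ∀ S', crs w S' S'ᶜ = c → 2 * (a - b) ≤ |inn w S' - inn w S'ᶜ|) :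
    2 * a ≤ (c - a - b - (a - b)) * (c - a - b - (a - b) - 1) ∨
      2 * (a - b) < c - a - b ∨
      (2 * (a - b) - (c - a - b) + 1) * (c - a - b) ≤ 2 * a := by
  classical
  set I : V → ℤ := fun v => ∑ j ∈ S, w v j with hI
  set O : V → ℤ := fun v => ∑ j ∈ Sᶜ, w v j with hO
  have hIO : ∀ v ∈ S, I v ≤ O v := by
    intro v hv
    have h2 := hc (S.erase v)
    rw [flipB_erase hw S hv, hS] at h2
    simp only [hI, hO]
    linarith
  have hI0 : ∀ v, 0 ≤ I v := fun v => Finset.sum_nonneg fun j _ => h0 v j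
  have hwI : ∀ i, ∀ j ∈ S, w i j ≤ I i := fun i j hj =>
    Finset.single_le_sum (f := fun j => w i j) (fun k _ => h0 i k) hj
  have hsumI : ∑ v ∈ S, I v = 2 * a := ha
  have hsumO : ∑ v ∈ S, O v = c := hS
  -- the vertices with a positive gap
  set P : Finset V := S.filter fun v => I v < O v with hP
  set Z : Finset V := S.filter fun v => I v = O v ∧ 0 < I v with hZ
  have hPcard : (P.card : ℤ) ≤ c - 2 * a := by
    have h2 : ∑ v ∈ S, (O v - I v) = c - 2 * a := by
      rw [Finset.sum_sub_distrib, hsumI, hsumO]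
    rw [← h2]
    calc (P.card : ℤ) = ∑ v ∈ P, (1 : ℤ) := by simp
      _ ≤ ∑ v ∈ P, (O v - I v) := by
          refine Finset.sum_le_sum fun v hv => ?_
          have := (mem_filter.1 hv).2
          linarith [Int.add_one_le_iff.2 this]
      _ ≤ ∑ v ∈ S, (O v - I v) := by
          refine Finset.sum_le_sum_of_subset_of_nonneg (filter_subset _ _) fun v hv _ => ?_
          linarith [hIO v hv]
  have hflip : ∀ v ∈ Z, a - b ≤ I v := by
    intro v hv
    obtain ⟨hvS, hv1, hv2⟩ := mem_filter.1 hv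
    have h2 : crs w (S.erase v) (S.erase v)ᶜ = c := by
      rw [flipB_erase hw S hvS, hS]
      have : ∑ j ∈ S, w v j = ∑ j ∈ Sᶜ, w v j := hv1
      linarith
    have h3 := hmin _ h2
    rw [inn_erase hw S hvS, inn_erase_compl hw S hvS, ha, hb] at h3
    have h4 : ∑ j ∈ S, w v j = I v := rfl
    have h5 : ∑ j ∈ Sᶜ, w v j = I v := hv1.symm
    rw [h4, h5] at h3
    rcases le_abs'.1 h3 with h6 | h6
    · linarith
    · linarith
  -- neighbours inside `S` are in `Z ∪ P`
  have hnb : ∀ v j, j ∈ S → 0 < w v j → v ∈ S → j ∈ Z ∪ P := by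
    intro v j hj hvj hv
    have h2 : 0 < I j := by
      have := hwI j v hv
      rw [hw.symm j v] at this
      linarith
    rcases eq_or_lt_of_le (hIO j hj) with h3 | h3
    · exact mem_union_left _ (mem_filter.2 ⟨hj, h3, h2⟩)
    · exact mem_union_right _ (mem_filter.2 ⟨hj, h3⟩)
  by_cases hZe : Z = ∅
  · left
    have h2 : inn w S = inn w P := by
      have hz : ∀ j ∈ S, j ∉ P → ∀ i ∈ S, w i j = 0 := by
        intro j hj hjP i hi
        by_contra hne
        have h3 : 0 < w i j := lt_of_le_of_ne (h0 i j) (Ne.symm hne)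
        have h4 := hnb i j hj h3 hi
        rw [hZe, empty_union] at h4
        exact hjP h4
      have hPS : P ⊆ S := filter_subset _ _
      unfold inn
      have h3 : ∀ i ∈ S, ∑ j ∈ S, w i j = ∑ j ∈ P, w i j := by
        intro i hi
        exact (Finset.sum_subset hPS fun j hj hjP => hz j hj hjP i hi).symm
      rw [Finset.sum_congr rfl h3]
      refine (Finset.sum_subset hPS fun i hi hiP => ?_).symm
      refine Finset.sum_eq_zero fun j hj => ?_
      rw [hw.symm i j]
      exact hz i hi hiP j (hPS hj)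
    have h3 := inn_le_card hw h1 P
    rw [← h2, ha] at h3
    have e1 : c - a - b - (a - b) = c - 2 * a := by ring
    rw [e1]
    have hp0 : (0 : ℤ) ≤ P.card := Int.natCast_nonneg _
    rcases eq_or_lt_of_le hp0 with h4 | h4
    · rw [← h4] at h3 hPcard
      rcases eq_or_lt_of_le hPcard with h5 | h5
      · rw [← h5]; linarith
      · have h6 : 0 ≤ (c - 2 * a) * (c - 2 * a - 1) :=
          mul_nonneg h5.le (by linarith [Int.add_one_le_iff.2 h5])
        linarith
    · have h5 : 0 ≤ (P.card : ℤ) - 1 := by linarith [Int.add_one_le_iff.2 h4]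
      have h6 : (P.card : ℤ) * ((P.card : ℤ) - 1) ≤ (c - 2 * a) * (c - 2 * a - 1) :=
        mul_le_mul hPcard (by linarith) h5 (by linarith)
      linarith
  · right
    by_cases hlt : 2 * (a - b) < c - a - b
    · exact Or.inl hlt
    · right
      rw [not_lt] at hlt
      obtain ⟨v, hv⟩ := Finset.nonempty_iff_ne_empty.2 hZe
      have hvS : v ∈ S := (mem_filter.1 hv).1
      have h2 : I v ≤ (Z.card : ℤ) + P.card - 1 := by
        have h3 : I v = ∑ j ∈ S.filter (fun j => 0 < w v j), w v j := by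
          refine (Finset.sum_filter_of_ne fun j _ hne => ?_).symm
          exact lt_of_le_of_ne (h0 v j) (Ne.symm hne)
        have h4 : S.filter (fun j => 0 < w v j) ⊆ (Z ∪ P).erase v := by
          intro j hj
          obtain ⟨hj1, hj2⟩ := mem_filter.1 hj
          refine mem_erase.2 ⟨?_, hnb v j hj1 hj2 hvS⟩
          rintro rfl
          rw [hw.diag] at hj2
          exact lt_irrefl _ hj2
        have h5 : ∑ j ∈ S.filter (fun j => 0 < w v j), w v j ≤
            ((S.filter (fun j => 0 < w v j)).card : ℤ) := by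
          calc ∑ j ∈ S.filter (fun j => 0 < w v j), w v j
              ≤ ∑ j ∈ S.filter (fun j => 0 < w v j), (1 : ℤ) :=
                Finset.sum_le_sum fun j _ => h1 v j
            _ = _ := by simp
        have h6 := card_le_card h4
        have hvm : v ∈ Z ∪ P := mem_union_left _ hv
        rw [card_erase_of_mem hvm] at h6
        have h7 := card_union_le Z P
        have h8 : 1 ≤ (Z ∪ P).card := card_pos.2 ⟨v, hvm⟩
        rw [h3]
        have h9 : ((S.filter (fun j => 0 < w v j)).card : ℤ) ≤ (Z.card : ℤ) + P.card - 1 := by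
          omega
        linarith
      have h3 := hflip v hv
      set k : ℤ := 2 * (a - b) - (c - a - b) + 1 with hk
      have hk1 : 1 ≤ k := by rw [hk]; linarith
      have hkZ : k ≤ Z.card := by rw [hk]; linarith
      obtain ⟨kn, hkn⟩ := Int.eq_ofNat_of_zero_le (by linarith : 0 ≤ k)
      obtain ⟨Z', hZ', hZc⟩ := Finset.exists_subset_card_eq
        (s := Z) (n := kn) (by rw [hkn] at hkZ; exact_mod_cast hkZ)
      have hZS : Z' ⊆ S := hZ'.trans (filter_subset _ _)
      -- edges with an end in `Z'`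
      have h4 : 2 * ∑ v ∈ Z', I v - inn w Z' ≤ inn w S := by
        have e1 : inn w S = ∑ i ∈ Z', I i + ∑ i ∈ S \ Z', I i := by
          rw [add_comm]
          exact (Finset.sum_sdiff hZS).symm
        have e2 : ∀ i, I i = ∑ j ∈ Z', w i j + ∑ j ∈ S \ Z', w i j := by
          intro i
          rw [add_comm]
          exact (Finset.sum_sdiff hZS).symm
        have e3 : ∑ i ∈ Z', I i = inn w Z' + ∑ i ∈ Z', ∑ j ∈ S \ Z', w i j := by
          rw [Finset.sum_congr rfl fun i _ => e2 i, Finset.sum_add_distrib]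
          rfl
        have e4 : ∑ i ∈ Z', ∑ j ∈ S \ Z', w i j = ∑ i ∈ S \ Z', ∑ j ∈ Z', w i j := by
          rw [Finset.sum_comm]
          exact Finset.sum_congr rfl fun i _ => Finset.sum_congr rfl fun j _ => hw.symm j i
        have e5 : ∑ i ∈ S \ Z', ∑ j ∈ Z', w i j ≤ ∑ i ∈ S \ Z', I i := by
          refine Finset.sum_le_sum fun i _ => ?_
          rw [e2 i]
          have : 0 ≤ ∑ j ∈ S \ Z', w i j := Finset.sum_nonneg fun j _ => h0 i j
          linarith
        rw [e1]
        linarith
      have h5 : (k : ℤ) * (a - b) ≤ ∑ v ∈ Z', I v := by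
        calc k * (a - b) = ∑ v ∈ Z', (a - b) := by
              rw [Finset.sum_const, nsmul_eq_mul, hZc, hkn]
          _ ≤ ∑ v ∈ Z', I v := Finset.sum_le_sum fun v hv => hflip v (hZ' hv)
      have h6 := inn_le_card hw h1 Z'
      have h7 : (Z'.card : ℤ) = k := by rw [hZc, hkn]
      rw [h7] at h6
      rw [ha] at h4
      have h8 : k * (c - a - b) = 2 * (k * (a - b)) - k * (k - 1) := by
        rw [hk]; ring
      linarith

end Pool.Agent.QMA
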