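import Pool.Agent.MXC.Fin
import Pool.Agent.QMA.Slack
import Pool.Agent.QMA.Num

/-!
# [QMA] the formula `2 Q(m) = (m - f) ^ 2 + D ^ 2` for all `m`
-/

set_option autoImplicit false

namespace Pool.Agent.QMA

open Finset Pool.Agent.MP_710317_co Pool.Agent.MP_710317_co.Rec Pool.Agent.MXC

theorem ad01 {V : Type*} [DecidableEq V] (G : SimpleGraph V) :
    (∀ i j, 0 ≤ ad G i j) ∧ ∀ i j, ad G i j ≤ 1 := by
  constructor
  · intro i j
    unfold ad
    split_ifs <;> norm_num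
  · intro i j
    unfold ad
    split_ifs <;> norm_num

theorem key {N m : ℕ} (G : SimpleGraph (Fin N)) (hG : G.edgeSet.ncard = m)
    (S : Finset (Fin N)) : ∃ a b : ℕ, inn (ad G) S = 2 * (a : ℤ) ∧ inn (ad G) Sᶜ = 2 * (b : ℤ) ∧
      (m : ℤ) = a + b + crs (ad G) S Sᶜ ∧ (qval G : ℤ) ≤ (a : ℤ) ^ 2 + (b : ℤ) ^ 2 := by
  have hsym : Sym (ad G) := ⟨ad_comm G, ad_self G⟩
  have htot : inn (ad G) univ = 2 * (m : ℤ) := ord_univ_eq G m hG
  refine ⟨inside G (S : Set (Fin N)), inside G ((Sᶜ : Finset (Fin N)) : Set (Fin N)),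
    ord_eq_inside G S, ord_eq_inside G Sᶜ, ?_, ?_⟩
  · have h1 := tot_split hsym S
    have h2 : inn (ad G) S = 2 * (inside G (S : Set (Fin N)) : ℤ) := ord_eq_inside G S
    have h3 : inn (ad G) Sᶜ = 2 * (inside G ((Sᶜ : Finset (Fin N)) : Set (Fin N)) : ℤ) :=
      ord_eq_inside G Sᶜ
    rw [htot, h2, h3] at h1
    linarith
  · have h1 := qval_le G S
    rw [ord_eq_inside G S, ord_eq_inside G Sᶜ] at h1
    nlinarith

/-- the maximum cut with the least difference; the facts of `slack` in natural numbers -/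
theorem best_cut {N m : ℕ} (G : SimpleGraph (Fin N)) (hG : G.edgeSet.ncard = m) {c : ℕ}
    (hc : ∀ S, crs (ad G) S Sᶜ ≤ (c : ℤ)) (hex : ∃ S, crs (ad G) S Sᶜ = (c : ℤ)) :
    ∃ a b : ℕ, b ≤ a ∧ m = a + b + c ∧ qval G ≤ a ^ 2 + b ^ 2 ∧
      (∀ S, crs (ad G) S Sᶜ = (c : ℤ) → 2 * ((a : ℤ) - b) ≤ |inn (ad G) S - inn (ad G) Sᶜ|) ∧
      (∃ S, crs (ad G) S Sᶜ = (c : ℤ) ∧ inn (ad G) S - inn (ad G) Sᶜ = 2 * ((a : ℤ) - b)) ∧
      a + (a + b) ≤ c + b ∧
      (b < a → 2 * a ≤ ((c - a - b) - (a - b)) * ((c - a - b) - (a - b) - 1) ∨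
        2 * (a - b) < c - a - b ∨ (2 * (a - b) + 1 - (c - a - b)) * (c - a - b) ≤ 2 * a) := by
  classical
  have hsym : Sym (ad G) := ⟨ad_comm G, ad_self G⟩
  have htot : inn (ad G) univ = 2 * (m : ℤ) := ord_univ_eq G m hG
  obtain ⟨S₀, hS₀⟩ := hex
  obtain ⟨S, hS, hmin⟩ := Finset.exists_min_image
    ((univ : Finset (Finset (Fin N))).filter fun S => crs (ad G) S Sᶜ = (c : ℤ))
    (fun S => |inn (ad G) S - inn (ad G) Sᶜ|) ⟨S₀, by simpa using hS₀⟩
  have hSc : crs (ad G) S Sᶜ = (c : ℤ) := by simpa using hS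
  have hmin' : ∀ S', crs (ad G) S' S'ᶜ = (c : ℤ) →
      |inn (ad G) S - inn (ad G) Sᶜ| ≤ |inn (ad G) S' - inn (ad G) S'ᶜ| := fun S' h' =>
    hmin S' (by simpa using h')
  -- we may assume that the inside of `S` is not smaller
  have main : ∀ U : Finset (Fin N), crs (ad G) U Uᶜ = (c : ℤ) → inn (ad G) Uᶜ ≤ inn (ad G) U →
      (∀ S', crs (ad G) S' S'ᶜ = (c : ℤ) →
        inn (ad G) U - inn (ad G) Uᶜ ≤ |inn (ad G) S' - inn (ad G) S'ᶜ|) →
      ∃ a b : ℕ, b ≤ a ∧ m = a + b + c ∧ qval G ≤ a ^ 2 + b ^ 2 ∧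
      (∀ S, crs (ad G) S Sᶜ = (c : ℤ) → 2 * ((a : ℤ) - b) ≤ |inn (ad G) S - inn (ad G) Sᶜ|) ∧
      (∃ S, crs (ad G) S Sᶜ = (c : ℤ) ∧ inn (ad G) S - inn (ad G) Sᶜ = 2 * ((a : ℤ) - b)) ∧
      a + (a + b) ≤ c + b ∧
      (b < a → 2 * a ≤ ((c - a - b) - (a - b)) * ((c - a - b) - (a - b) - 1) ∨
        2 * (a - b) < c - a - b ∨ (2 * (a - b) + 1 - (c - a - b)) * (c - a - b) ≤ 2 * a) := by
    intro U hU hle hmn
    obtain ⟨a, b, ha, hb, hab, hq⟩ := key G hG U
    rw [hU] at hab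
    have hba : b ≤ a := by
      rw [ha, hb] at hle
      omega
    have hflip := flipB_inn hsym hc U hU
    rw [ha] at hflip
    have e1 : inn (ad G) U - inn (ad G) Uᶜ = 2 * ((a : ℤ) - b) := by rw [ha, hb]; ring
    refine ⟨a, b, hba, by omega, by exact_mod_cast hq, fun S' hS' => ?_, ⟨U, hU, e1⟩, by omega,
      fun hlt => ?_⟩
    · rw [← e1]
      exact hmn S' hS'
    · have h1 := slack hsym (ad01 G).1 (ad01 G).2 hc hU ha hb (by exact_mod_cast hlt)
        (fun S' hS' => by rw [← e1]; exact hmn S' hS')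
      have h2 : ((a - b : ℕ) : ℤ) = (a : ℤ) - b := by push_cast [hba]; ring
      have h3 : ((c - a - b : ℕ) : ℤ) = (c : ℤ) - a - b := by omega
      have h5 : a - b ≤ c - a - b := by omega
      rcases h1 with h1 | h1 | h1
      · left
        rcases Nat.eq_zero_or_pos ((c - a - b) - (a - b)) with h6 | h6
        · have h7 : (c : ℤ) - a - b - (a - b) = 0 := by omega
          rw [h7] at h1
          have h8 : a = 0 := by omega
          omega
        · have h7 : (((c - a - b) - (a - b) : ℕ) : ℤ) = (c : ℤ) - a - b - (a - b) := by omega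
          have h8 : (((c - a - b) - (a - b) - 1 : ℕ) : ℤ) = (c : ℤ) - a - b - (a - b) - 1 := by omega
          have h9 : (c : ℤ) - a - b - (a - b) - 1 = (((c - a - b) - (a - b) - 1 : ℕ) : ℤ) := h8.symm
          rw [h9, ← h7] at h1
          exact_mod_cast h1
      · right; left
        omega
      · right; right
        rcases Nat.lt_or_ge (2 * (a - b)) (c - a - b) with h6 | h6
        · have h7 : 2 * (a - b) + 1 - (c - a - b) = 0 := by omega
          rw [h7]; omega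
        · have h7 : ((2 * (a - b) + 1 - (c - a - b) : ℕ) : ℤ) =
              2 * ((a : ℤ) - b) - (c - a - b) + 1 := by omega
          rw [← h7, ← h3] at h1
          exact_mod_cast h1
  rcases le_total (inn (ad G) Sᶜ) (inn (ad G) S) with h | h
  · refine main S hSc h fun S' hS' => ?_
    have := hmin' S' hS'
    rwa [abs_of_nonneg (by linarith)] at this
  · refine main Sᶜ ?_ ?_ fun S' hS' => ?_
    · rw [compl_compl, crs_comm hsym]
      exact hSc
    · rw [compl_compl]; exact h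
    · have := hmin' S' hS'
      rw [compl_compl]
      rwa [abs_of_nonpos (by linarith), neg_sub] at this

theorem small_facts {m : ℕ} (h1 : 1 ≤ m) (h2 : m < 980) :
    (tab m : ℤ) = 2 * (mc m : ℤ) - m ∧ mc m ≤ m ∧ m - tab m = 2 * (m - mc m) := by
  have h3 := T_eq_tab m (by omega)
  have h4 : T m = 2 * (mc m : ℤ) - m := by
    unfold T
    rw [Int.toNat_natCast]
  obtain ⟨h5, h6⟩ := par_spec h1 h2
  rw [h4] at h3
  refine ⟨h3.symm, by omega, by omega⟩

theorem q_upper_small {N m : ℕ} (G : SimpleGraph (Fin N)) (hG : G.edgeSet.ncard = m)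
    (h1 : 1 ≤ m) (h2 : m < 980) (h12 : 2 ≤ Dl 0 12) (h19 : 1 ≤ Dl 0 19) :
    2 * qval G ≤ (m - mc m) ^ 2 + (Dl 0 m) ^ 2 := by
  classical
  obtain ⟨ht, hfm, htf⟩ := small_facts h1 h2
  have hsym : Sym (ad G) := ⟨ad_comm G, ad_self G⟩
  have hmk : Mk 0 (ad G) := ⟨G, fun i => i.elim0, fun i j _ => by simp⟩
  have htot : inn (ad G) univ = 2 * (m : ℤ) := ord_univ_eq G m hG
  obtain ⟨U, -, hU⟩ := Finset.exists_max_image (univ : Finset (Finset (Fin N)))
    (fun S => crs (ad G) S Sᶜ) ⟨∅, mem_univ _⟩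
  have hU' : ∀ S, crs (ad G) S Sᶜ ≤ crs (ad G) U Uᶜ := fun S => hU S (mem_univ _)
  have hc0 : 0 ≤ crs (ad G) U Uᶜ := by
    have := hU' ∅
    simpa [crs] using this
  obtain ⟨c, hc⟩ := Int.eq_ofNat_of_zero_le hc0
  have hcle : ∀ S, crs (ad G) S Sᶜ ≤ (c : ℤ) := fun S => hc ▸ hU' S
  have hex : Ex 0 (m : ℤ) (ad G) (c : ℤ) := ⟨hsym, hmk, htot, hcle⟩
  have hfc : mc m ≤ c := by
    have := fl_le hex
    rwa [fl_eq] at this
  obtain ⟨a, b, hba, hmab, hq, hmin, -, hflip, hsl⟩ := best_cut G hG hcle ⟨U, hc⟩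
  -- the squares
  have hsq : 2 * (a ^ 2 + b ^ 2) = (a + b) ^ 2 + (a - b) * (a - b) := by
    obtain ⟨d, rfl⟩ := Nat.exists_eq_add_of_le hba
    rw [Nat.add_sub_cancel_left]
    ring
  by_cases hcf : c = mc m
  · -- extremal
    have hex' : Ex 0 (m : ℤ) (ad G) (fl 0 m : ℤ) := by
      rw [fl_eq, ← hcf]; exact hex
    have h3 : a - b ∈ lowVals 0 m := by
      refine mem_lowVals hex' fun S hS => ?_
      rw [fl_eq, ← hcf] at hS
      have h4 := hmin S hS
      have h5 : ((a - b : ℕ) : ℤ) = (a : ℤ) - b := by push_cast [hba]; ring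
      rw [h5]
      exact h4
    have h4 := le_Dl h3
    have h5 : (a - b) * (a - b) ≤ Dl 0 m ^ 2 := by
      rw [sq]; exact Nat.mul_le_mul h4 h4
    have h6 : m - mc m = a + b := by omega
    rw [h6]
    calc 2 * qval G ≤ 2 * (a ^ 2 + b ^ 2) := Nat.mul_le_mul_left 2 hq
      _ = (a + b) ^ 2 + (a - b) * (a - b) := hsq
      _ ≤ _ := Nat.add_le_add_left h5 _
  · have hj : 1 ≤ c - mc m := by omega
    set j := c - mc m with hjdef
    have hab : a + b = (m - tab m) / 2 - j := by omega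
    have hj2 : j ≤ (m - tab m) / 2 := by omega
    have hdiff : (m - mc m) ^ 2 = (a + b) ^ 2 + j * (m - tab m - j) := by
      have e1 : m - mc m = a + b + j := by omega
      have e2 : m - tab m - j = 2 * (a + b) + j := by omega
      rw [e1, e2]
      ring
    have goal : (a - b) * (a - b) ≤ j * (m - tab m - j) + Dl 0 m ^ 2 → 
        2 * qval G ≤ (m - mc m) ^ 2 + (Dl 0 m) ^ 2 := by
      intro h
      rw [hdiff]
      calc 2 * qval G ≤ 2 * (a ^ 2 + b ^ 2) := Nat.mul_le_mul_left 2 hq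
        _ = (a + b) ^ 2 + (a - b) * (a - b) := hsq
        _ ≤ (a + b) ^ 2 + (j * (m - tab m - j) + Dl 0 m ^ 2) := Nat.add_le_add_left h _
        _ = _ := by ring
    apply goal
    by_cases he : (m = 12 ∧ j = 1) ∨ (m = 19 ∧ j = 2)
    · rcases he with ⟨hm, hj1⟩ | ⟨hm, hj1⟩
      · have h3 : tab m = 4 := by rw [hm]; decide +kernel
        have h4 : a - b ≤ 3 := by omega
        have h5 : 2 ^ 2 ≤ Dl 0 m ^ 2 := by
          rw [hm]; exact Nat.pow_le_pow_left h12 2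
        have h6 : (a - b) * (a - b) ≤ 3 * 3 := Nat.mul_le_mul h4 h4
        have h7 : j * (m - tab m - j) = 7 := by rw [h3, hj1, hm]
        omega
      · have h3 : tab m = 5 := by rw [hm]; decide +kernel
        have h4 : a - b ≤ 5 := by omega
        have h5 : 1 ^ 2 ≤ Dl 0 m ^ 2 := by
          rw [hm]; exact Nat.pow_le_pow_left h19 2
        have h6 : (a - b) * (a - b) ≤ 5 * 5 := Nat.mul_le_mul h4 h4
        have h7 : j * (m - tab m - j) = 24 := by rw [h3, hj1, hm]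
        omega
    · have h3 := upper_spec h1 h2 hj hj2 he
      rcases Nat.eq_or_lt_of_le hba with h4 | h4
      · rw [h4, Nat.sub_self]
        exact Nat.zero_le _
      · have h5 : c - a - b = tab m + 2 * j := by omega
        have h6 := good_spec h3 hab h4 (by omega) (by
          have := hsl h4
          rw [h5] at this
          exact this)
        exact h6.trans (Nat.le_add_right _ _)

theorem q_lower_small {m : ℕ} (h1 : 1 ≤ m) (h2 : m < 980) :
    ∃ (N : ℕ) (G : SimpleGraph (Fin N)), G.edgeSet.ncard = m ∧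
      (m - mc m) ^ 2 + (Dl 0 m) ^ 2 ≤ 2 * qval G := by
  classical
  obtain ⟨ht, hfm, htf⟩ := small_facts h1 h2
  obtain ⟨N, G, K, htot, hcut, hd⟩ := Dl_mem 0 m
  have hin : ∀ S : Finset (Fin N), exIn G K S = (inside G (S : Set (Fin N)) : ℤ) := by
    intro S
    simp [exIn]
  have hG : G.edgeSet.ncard = m := by
    rw [hin] at htot
    have h1 : inside G ((univ : Finset (Fin N)) : Set (Fin N)) = G.edgeSet.ncard := by
      unfold inside
      congr 1
      ext e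
      simp
    rw [h1] at htot
    exact_mod_cast htot
  refine ⟨N, G, hG, ?_⟩
  rw [fl_eq] at hcut hd
  -- translation to matrices
  have hcrs : ∀ S, exCut G K S = crs (ad G) S Sᶜ := by
    intro S
    obtain ⟨a, b, ha, hb, hab, -⟩ := key G hG S
    unfold exCut
    rw [htot, hin, hin]
    have h2 : inn (ad G) S = 2 * (inside G (S : Set (Fin N)) : ℤ) := ord_eq_inside G S
    have h3 : inn (ad G) Sᶜ = 2 * (inside G ((Sᶜ : Finset (Fin N)) : Set (Fin N)) : ℤ) :=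
      ord_eq_inside G Sᶜ
    rw [ha] at h2
    rw [hb] at h3
    linarith
  have hcle : ∀ S, crs (ad G) S Sᶜ ≤ (mc m : ℤ) := fun S => by rw [← hcrs]; exact hcut S
  obtain ⟨S₁, hS₁⟩ := exists_cut G hG
  have hS₁' : crs (ad G) S₁ S₁ᶜ = (mc m : ℤ) := by
    refine le_antisymm (hcle S₁) ?_
    rw [← cutSize_eq]
    exact_mod_cast hS₁
  obtain ⟨a, b, hba, hmab, hq, hmin, ⟨S₂, hS₂, hab₂⟩, hflip, hsl⟩ := best_cut G hG hcle ⟨S₁, hS₁'⟩
  have hDall : ∀ S, crs (ad G) S Sᶜ = (mc m : ℤ) →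
      2 * (Dl 0 m : ℤ) ≤ |inn (ad G) S - inn (ad G) Sᶜ| := by
    intro S hS
    rw [← hcrs] at hS
    have h3 := hd S hS
    rw [hin, hin] at h3
    have e1 : inn (ad G) S = 2 * (inside G (S : Set (Fin N)) : ℤ) := ord_eq_inside G S
    have e2 : inn (ad G) Sᶜ = 2 * (inside G ((Sᶜ : Finset (Fin N)) : Set (Fin N)) : ℤ) :=
      ord_eq_inside G Sᶜ
    rw [e1, e2, ← mul_sub, abs_mul, abs_two]
    linarith
  -- `D ^ 2 ≤ 2 (m - f) + 1`
  have hD : Dl 0 m * Dl 0 m ≤ m - tab m + 1 := by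
    have h3 : Dl 0 m ≤ a - b := by
      have h4 := hDall S₂ hS₂
      rw [hab₂, abs_of_nonneg (by
        have : (b : ℤ) ≤ a := by exact_mod_cast hba
        linarith)] at h4
      omega
    rcases Nat.eq_or_lt_of_le hba with h4 | h4
    · have h5 : Dl 0 m = 0 := by omega
      rw [h5]
      exact Nat.zero_le _
    · have h5 : mc m - a - b = tab m := by omega
      have h6 := good_spec (lower_spec h1 h2) (a := a) (b := b) (by omega) h4 (by omega) (by
        have := hsl h4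
        rw [h5] at this
        exact this)
      exact (Nat.mul_le_mul h3 h3).trans h6
  obtain ⟨U, hU⟩ := exists_qval G
  obtain ⟨x, y, hx, hy, hxy, -⟩ := key G hG U
  have hq' : qval G = x ^ 2 + y ^ 2 := by
    have e1 : ord G U = 2 * (x : ℤ) := hx
    have e2 : ord G Uᶜ = 2 * (y : ℤ) := hy
    rw [e1, e2] at hU
    have : (qval G : ℤ) = (x : ℤ) ^ 2 + (y : ℤ) ^ 2 := by nlinarith
    exact_mod_cast this
  have hcU := hcle U
  by_cases hcc : crs (ad G) U Uᶜ = (mc m : ℤ)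
  · have h3 := hDall U hcc
    rw [hx, hy, ← mul_sub, abs_mul, abs_two] at h3
    have h4 : (Dl 0 m : ℤ) ≤ |(x : ℤ) - y| := by linarith
    have h5 : (Dl 0 m : ℤ) ^ 2 ≤ ((x : ℤ) - y) ^ 2 := by
      rw [← sq_abs ((x : ℤ) - y)]
      exact pow_le_pow_left₀ (Int.natCast_nonneg _) h4 2
    rw [hcc] at hxy
    have h6 : ((m - mc m : ℕ) : ℤ) = (x : ℤ) + y := by omega
    zify
    rw [h6, hq']
    push_cast
    nlinarith
  · have h3 : (m - mc m) + 1 ≤ x + y := by omega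
    have h4 : ((m - mc m) + 1) ^ 2 ≤ (x + y) ^ 2 := Nat.pow_le_pow_left h3 2
    have h5 : (x + y) ^ 2 ≤ 2 * (x ^ 2 + y ^ 2) := by
      zify
      nlinarith [sq_nonneg ((x : ℤ) - y)]
    rw [hq']
    have h6 : ((m - mc m) + 1) ^ 2 = (m - mc m) ^ 2 + (2 * (m - mc m) + 1) := by ring
    rw [sq (Dl 0 m)]
    omega

/-- `2 Q(m) = (m - f) ^ 2 + D ^ 2` for all `m` -/
theorem q_formula (m : ℕ) (h12 : 2 ≤ Dl 0 12) (h19 : 1 ≤ Dl 0 19) (hm : 1 ≤ m) :
    mc m ≤ m ∧ Dl 0 m ≤ 2 * mc m - m ∧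
    ∃ q, IsGreatest (qvalues m) q ∧ 2 * q = (m - mc m) ^ 2 + (Dl 0 m) ^ 2 := by
  rcases Nat.lt_or_ge m 980 with h | h
  · refine ⟨(small_facts hm h).2.1, by have := Dl_le 0 m; rwa [fl_eq] at this, ?_⟩
    obtain ⟨N, G, hG, hq⟩ := q_lower_small hm h
    have hu := q_upper_small G hG hm h h12 h19
    refine ⟨qval G, ⟨⟨N, G, hG, rfl⟩, ?_⟩, le_antisymm hu hq⟩
    rintro x ⟨N', G', hG', rfl⟩
    have := q_upper_small G' hG' hm h h12 h19
    omega
  · exact q_formula9 m h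

end Pool.Agent.QMA
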